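import Pool.Agent.Q99.AS.Dade

/-!
# Alternating sums over the chains of `p`-subgroups of `G`, with stabilisers in an extension `E`
-/

set_option autoImplicit false

open scoped Classical

noncomputable section

namespace Pool.Agent.H922DI

open Pool.Agent.Y63.KR Pool.Agent.Q99.AS

section defs

variable {G E : Type} [Group G] [Group E]

/-- `N_E(C)` for a chain `C` of subgroups of `G` (with members `P ∈ σ`) and an embedding `ι : G → E`:
the intersection of the normalizers of the subgroups `ι(P)`. -/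
def stabE (ι : G →* E) (σ : Set (Subgroup G)) : Subgroup E :=
  chainStabilizer ((fun P : Subgroup G => P.map ι) '' σ)

/-- The alternating sum `∑_C (-1)^|C| f(N_E(C))` over representatives `C` of the `G`-conjugacy classes
of chains `O = D_0 < D_1 < ⋯ < D_n` of `p`-subgroups of `G`, `|C| = n`. -/
def altE (ι : G →* E) (p : ℕ) (O : Subgroup G) (f : Subgroup E → ℤ) : ℤ :=
  ∑ᶠ c : Quotient (chSetoid p O), (-1) ^ c.out.1.ncard * f (stabE ι c.out.1)

end defs

section count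

variable {G E : Type} [Group G] [Group E] {p : ℕ} {O : Subgroup G}

theorem le_stabE {ι : G →* E} {K : Subgroup E} {σ : Set (Subgroup G)} :
    K ≤ stabE ι σ ↔ ∀ P ∈ σ, K ≤ Subgroup.normalizer ((P.map ι : Subgroup E) : Set E) := by
  unfold stabE
  rw [le_stab]
  constructor
  · intro h P hP
    exact h _ ⟨P, hP, rfl⟩
  · rintro h _ ⟨P, hP, rfl⟩
    exact h P hP

theorem map_conjSub (ι : G →* E) (g : G) (P : Subgroup G) :
    (conjSub g P).map ι = conjSub (ι g) (P.map ι) := by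
  unfold conjSub
  rw [Subgroup.map_map, Subgroup.map_map]
  congr 1
  ext x
  simp

theorem stabE_conj (ι : G →* E) (σ : Set (Subgroup G)) (g : G) :
    stabE ι (conjSub g '' σ) = conjSub (ι g) (stabE ι σ) := by
  unfold stabE
  rw [← chainStabilizer_conj, ← Set.image_comp, ← Set.image_comp]
  congr 1
  refine Set.image_congr fun P _ => ?_
  exact map_conjSub ι g P

theorem comap_stabE {ι : G →* E} (hι : Function.Injective ι) (σ : Set (Subgroup G)) :
    (stabE ι σ).comap ι = chainStabilizer σ := by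
  ext g
  rw [Subgroup.mem_comap, stabE, mem_chainStabilizer, mem_chainStabilizer]
  constructor
  · intro h P hP
    have := h _ ⟨P, hP, rfl⟩
    change conjSub (ι g) (P.map ι) = P.map ι at this
    rw [← map_conjSub] at this
    exact Subgroup.map_injective hι this
  · rintro h _ ⟨P, hP, rfl⟩
    change conjSub (ι g) (P.map ι) = P.map ι
    rw [← map_conjSub, h P hP]

theorem card_mul_altE [Finite G] {ι : G →* E} (hι : Function.Injective ι) (hO : O.Normal)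
    (f : Subgroup E → ℤ) (hf : ∀ (g : G) (K : Subgroup E), f (conjSub (ι g) K) = f K)
    [Fintype {σ : Set (Subgroup G) // IsCh p O σ}] :
    (Nat.card G : ℤ) * altE ι p O f =
      ∑ σ : {σ : Set (Subgroup G) // IsCh p O σ},
        (-1) ^ σ.1.ncard * ((Nat.card ((stabE ι σ.1).comap ι) : ℤ) * f (stabE ι σ.1)) := by
  let _ : MulAction G {σ : Set (Subgroup G) // IsCh p O σ} :=
    { smul := fun g σ => ⟨conjSub g '' σ.1, σ.2.conj hO g⟩
      one_smul := fun σ => by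
        apply Subtype.ext
        change conjSub (1 : G) '' σ.1 = σ.1
        have : (conjSub (1 : G)) = id := funext conjSub_one
        rw [this, Set.image_id]
      mul_smul := fun g h σ => by
        apply Subtype.ext
        change conjSub (g * h) '' σ.1 = conjSub g '' (conjSub h '' σ.1)
        rw [← Set.image_comp]
        congr 1
        exact funext fun P => conjSub_mul g h P }
  have hsm : ∀ (g : G) (σ : {σ : Set (Subgroup G) // IsCh p O σ}),
      (g • σ).1 = conjSub g '' σ.1 := fun _ _ => rfl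
  have h := orbit_sum (G := G) (chSetoid p O) (by
    intro σ τ
    change (∃ g : G, τ.1 = conjSub g '' σ.1) ↔ _
    constructor
    · rintro ⟨g, hg⟩
      exact ⟨g, Subtype.ext (by rw [hsm, hg])⟩
    · rintro ⟨g, hg⟩
      exact ⟨g, by rw [← hg, hsm]⟩)
    (fun σ => (-1) ^ σ.1.ncard * f (stabE ι σ.1)) (by
      rintro σ τ ⟨g, hg⟩
      rw [hg, ncard_conj, stabE_conj, hf])
  unfold altE
  rw [h]
  refine Finset.sum_congr rfl fun σ _ => ?_
  have hst : Nat.card (MulAction.stabilizer G σ) = Nat.card ((stabE ι σ.1).comap ι) := by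
    rw [comap_stabE hι]
    refine Nat.card_congr (Equiv.subtypeEquivRight fun g => ?_)
    rw [MulAction.mem_stabilizer_iff, Subtype.ext_iff, hsm, mem_chainStabilizer]
    constructor
    · intro h3 P hP
      have hgP : conjSub g P ∈ σ.1 := by
        rw [← h3]
        exact ⟨P, hP, rfl⟩
      have hcard : Nat.card (conjSub g P) = Nat.card P :=
        Nat.card_congr (Subgroup.equivMapOfInjective _ _ (MulAut.conj g).injective).toEquiv.symm
      rcases σ.2.chain.total hgP hP with h4 | h4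
      · exact Subgroup.eq_of_le_of_card_ge h4 hcard.ge
      · exact (Subgroup.eq_of_le_of_card_ge h4 hcard.le).symm
    · intro h3
      ext P
      constructor
      · rintro ⟨Q, hQ, rfl⟩
        rw [h3 Q hQ]
        exact hQ
      · intro hP
        exact ⟨P, hP, h3 P hP⟩
  rw [hst]
  ring

variable [Fintype (Subgroup G)]

/-- the `p`-subgroups of `G` that contain `O` and whose image is normalised by `K` -/
def SKE (ι : G →* E) (p : ℕ) (O : Subgroup G) (K : Subgroup E) : Finset (Subgroup G) :=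
  Finset.univ.filter fun P =>
    IsPGroup p P ∧ O ≤ P ∧ K ≤ Subgroup.normalizer ((P.map ι : Subgroup E) : Set E)

theorem mem_SKE {ι : G →* E} {K : Subgroup E} {P : Subgroup G} :
    P ∈ SKE ι p O K ↔ IsPGroup p P ∧ O ≤ P ∧
      K ≤ Subgroup.normalizer ((P.map ι : Subgroup E) : Set E) := by simp [SKE]

/-- the signed sum over all chains -/
def csE (ι : G →* E) (p : ℕ) (O : Subgroup G) (w : Subgroup E → ℤ) : ℤ :=
  ∑ σ ∈ Ch ((SK p O ⊥).erase O), (-1) ^ σ.card * w (stabE ι (σ : Set (Subgroup G)))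

theorem sum_eq_csE (ι : G →* E) (w : Subgroup E → ℤ)
    [Fintype {σ : Set (Subgroup G) // IsCh p O σ}] :
    ∑ σ : {σ : Set (Subgroup G) // IsCh p O σ}, (-1) ^ σ.1.ncard * w (stabE ι σ.1) =
      csE ι p O w := by
  unfold csE
  refine Finset.sum_bij (fun σ _ => σ.1.toFinset) ?_ ?_ ?_ ?_
  · intro σ _
    rw [mem_chains, Set.coe_toFinset]
    exact σ.2
  · intro σ _ τ _ h
    apply Subtype.ext
    rw [← Set.coe_toFinset σ.1, h, Set.coe_toFinset]
  · intro σ hσ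
    refine ⟨⟨(σ : Set (Subgroup G)), mem_chains.1 hσ⟩, Finset.mem_univ _, ?_⟩
    simp
  · intro σ _
    rw [Set.coe_toFinset, Set.ncard_eq_toFinset_card']

theorem filter_chainsE (ι : G →* E) (K : Subgroup E) :
    (Ch ((SK p O ⊥).erase O)).filter
      (fun σ : Finset (Subgroup G) => K ≤ stabE ι (σ : Set (Subgroup G))) =
      Ch ((SKE ι p O K).erase O) := by
  ext σ
  rw [Finset.mem_filter, mem_Ch, mem_Ch, le_stabE]
  constructor
  · rintro ⟨⟨h1, h2⟩, h3⟩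
    refine ⟨h1, fun P hP => ?_⟩
    have := h2 hP
    rw [Finset.mem_erase, mem_SK] at this
    rw [Finset.mem_erase, mem_SKE]
    exact ⟨this.1, this.2.1, this.2.2.1, h3 P hP⟩
  · rintro ⟨h1, h2⟩
    refine ⟨⟨h1, fun P hP => ?_⟩, fun P hP => ?_⟩
    · have := h2 hP
      rw [Finset.mem_erase, mem_SKE] at this
      rw [Finset.mem_erase, mem_SK]
      exact ⟨this.1, this.2.1, this.2.2.1, bot_le⟩
    · have := h2 hP
      rw [Finset.mem_erase, mem_SKE] at this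
      exact this.2.2.2

theorem sum_stabE (ι : G →* E) (K : Subgroup E) :
    ∑ σ ∈ Ch ((SK p O ⊥).erase O),
      (if K ≤ stabE ι (σ : Set (Subgroup G)) then (-1) ^ σ.card else 0 : ℤ) =
      ec ((SKE ι p O K).erase O) := by
  rw [← Finset.sum_filter, filter_chainsE]
  rfl

end count

section prod

variable {G₁ G₂ E₁ E₂ : Type} [Group G₁] [Group G₂] [Group E₁] [Group E₂]

theorem map_prodMap (ι₁ : G₁ →* E₁) (ι₂ : G₂ →* E₂) (P : Subgroup G₁) (Q : Subgroup G₂) :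
    (P.prod Q).map (ι₁.prodMap ι₂) = (P.map ι₁).prod (Q.map ι₂) := by
  ext ⟨x, y⟩
  constructor
  · rintro ⟨⟨a, b⟩, hab, e⟩
    have e1 : ι₁ a = x := congrArg Prod.fst e
    have e2 : ι₂ b = y := congrArg Prod.snd e
    exact ⟨⟨a, hab.1, e1⟩, ⟨b, hab.2, e2⟩⟩
  · rintro ⟨⟨a, ha, e1⟩, ⟨b, hb, e2⟩⟩
    exact ⟨(a, b), ⟨ha, hb⟩, Prod.ext e1 e2⟩

theorem comap_prodMap (ι₁ : G₁ →* E₁) (ι₂ : G₂ →* E₂) (P : Subgroup E₁) (Q : Subgroup E₂) :
    (P.prod Q).comap (ι₁.prodMap ι₂) = (P.comap ι₁).prod (Q.comap ι₂) := by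
  ext ⟨x, y⟩
  exact Iff.rfl

theorem map_fst_prodMap (ι₁ : G₁ →* E₁) (ι₂ : G₂ →* E₂) (P : Subgroup (G₁ × G₂)) :
    (P.map (MonoidHom.fst G₁ G₂)).map ι₁ =
      (P.map (ι₁.prodMap ι₂)).map (MonoidHom.fst E₁ E₂) := by
  rw [Subgroup.map_map, Subgroup.map_map]
  rfl

theorem map_snd_prodMap (ι₁ : G₁ →* E₁) (ι₂ : G₂ →* E₂) (P : Subgroup (G₁ × G₂)) :
    (P.map (MonoidHom.snd G₁ G₂)).map ι₂ =
      (P.map (ι₁.prodMap ι₂)).map (MonoidHom.snd E₁ E₂) := by
  rw [Subgroup.map_map, Subgroup.map_map]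
  rfl

variable [Fintype (Subgroup G₁)] [Fintype (Subgroup G₂)] [Fintype (Subgroup (G₁ × G₂))]
  [Finite G₁] [Finite G₂]

theorem ec_SKE {p : ℕ} [Fact p.Prime] (ι₁ : G₁ →* E₁) (ι₂ : G₂ →* E₂) {O₁ : Subgroup G₁}
    {O₂ : Subgroup G₂} (h₁ : IsPGroup p O₁) (h₂ : IsPGroup p O₂)
    (n₁ : (O₁.map ι₁).Normal) (n₂ : (O₂.map ι₂).Normal)
    (K : Subgroup (E₁ × E₂)) :
    ec ((SKE (ι₁.prodMap ι₂) p (O₁.prod O₂) K).erase (O₁.prod O₂)) =
      ec ((SKE ι₁ p O₁ (K.map (MonoidHom.fst E₁ E₂))).erase O₁) *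
        ec ((SKE ι₂ p O₂ (K.map (MonoidHom.snd E₁ E₂))).erase O₂) := by
  have nt : ∀ {G : Type} [Group G] {O : Subgroup G} (_ : O.Normal) (K : Subgroup G),
      K ≤ Subgroup.normalizer (O : Set G) := by
    intro G _ O hO K
    rw [Subgroup.normalizer_eq_top_iff.2 hO]
    exact le_top
  refine ec_prod (mem_SKE.2 ⟨isPGroup_prod h₁ h₂, le_rfl, ?_⟩) (mem_SKE.2 ⟨h₁, le_rfl, nt n₁ _⟩)
    (mem_SKE.2 ⟨h₂, le_rfl, nt n₂ _⟩) (fun x hx => (mem_SKE.1 hx).2.1)
    (fun x hx => (mem_SKE.1 hx).2.1) (fun x hx => (mem_SKE.1 hx).2.1)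
    (fun P => P.map (MonoidHom.fst G₁ G₂)) (fun P => P.map (MonoidHom.snd G₁ G₂))
    (fun P Q => P.prod Q) ?_ ?_ ?_ (fun x _ y _ z _ => le_prod) (fun y _ z _ => prod_eq_iff)
  · rw [map_prodMap]
    exact prod_le_normalizer (nt n₁ _) (nt n₂ _)
  · intro P hP
    obtain ⟨a, b, c⟩ := mem_SKE.1 hP
    refine mem_SKE.2 ⟨a.map _, ?_, ?_⟩
    · intro x hx
      exact ⟨(x, 1), b (Subgroup.mem_prod.2 ⟨hx, one_mem _⟩), rfl⟩
    · rw [map_fst_prodMap ι₁ ι₂]
      exact map_le_normalizer _ c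
  · intro P hP
    obtain ⟨a, b, c⟩ := mem_SKE.1 hP
    refine mem_SKE.2 ⟨a.map _, ?_, ?_⟩
    · intro x hx
      exact ⟨(1, x), b (Subgroup.mem_prod.2 ⟨one_mem _, hx⟩), rfl⟩
    · rw [map_snd_prodMap ι₁ ι₂]
      exact map_le_normalizer _ c
  · intro P hP Q hQ
    obtain ⟨a, b, c⟩ := mem_SKE.1 hP
    obtain ⟨a', b', c'⟩ := mem_SKE.1 hQ
    refine mem_SKE.2 ⟨isPGroup_prod a a', Subgroup.prod_mono b b', ?_⟩
    rw [map_prodMap]
    exact prod_le_normalizer c c'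

variable [Fintype (Subgroup (E₁ × E₂))]

/-- **Signed sums over the chains of a direct product.** -/
theorem csE_prod {p : ℕ} [Fact p.Prime] (ι₁ : G₁ →* E₁) (ι₂ : G₂ →* E₂) {O₁ : Subgroup G₁}
    {O₂ : Subgroup G₂} (h₁ : IsPGroup p O₁) (h₂ : IsPGroup p O₂)
    (n₁ : (O₁.map ι₁).Normal) (n₂ : (O₂.map ι₂).Normal) (w : Subgroup (E₁ × E₂) → ℤ) :
    csE (ι₁.prodMap ι₂) p (O₁.prod O₂) w =
      ∑ σ ∈ Ch ((SK p O₁ ⊥).erase O₁), ∑ τ ∈ Ch ((SK p O₂ ⊥).erase O₂),
      (-1) ^ σ.card * ((-1) ^ τ.card * w ((stabE ι₁ (σ : Set (Subgroup G₁))).prod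
        (stabE ι₂ (τ : Set (Subgroup G₂))))) := by
  obtain ⟨m, hm⟩ := exists_transform w
  have hL : csE (ι₁.prodMap ι₂) p (O₁.prod O₂) w = ∑ K : Subgroup (E₁ × E₂), m K *
      (ec ((SKE ι₁ p O₁ (K.map (MonoidHom.fst E₁ E₂))).erase O₁) *
        ec ((SKE ι₂ p O₂ (K.map (MonoidHom.snd E₁ E₂))).erase O₂)) := by
    unfold csE
    have h1 : ∀ σ : Finset (Subgroup (G₁ × G₂)),
        (-1 : ℤ) ^ σ.card * w (stabE (ι₁.prodMap ι₂) (σ : Set (Subgroup (G₁ × G₂)))) =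
          ∑ K : Subgroup (E₁ × E₂), m K * (if K ≤ stabE (ι₁.prodMap ι₂)
            (σ : Set (Subgroup (G₁ × G₂))) then (-1) ^ σ.card else 0) := by
      intro σ
      rw [hm, Finset.sum_filter, Finset.mul_sum]
      refine Finset.sum_congr rfl fun K _ => ?_
      split_ifs <;> ring
    rw [Finset.sum_congr rfl fun σ _ => h1 σ, Finset.sum_comm]
    refine Finset.sum_congr rfl fun K _ => ?_
    rw [← Finset.mul_sum, sum_stabE, ec_SKE ι₁ ι₂ h₁ h₂ n₁ n₂]
  have hR : ∀ (σ : Finset (Subgroup G₁)) (τ : Finset (Subgroup G₂)),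
      (-1 : ℤ) ^ σ.card * ((-1) ^ τ.card * w ((stabE ι₁ (σ : Set (Subgroup G₁))).prod
        (stabE ι₂ (τ : Set (Subgroup G₂))))) =
      ∑ K : Subgroup (E₁ × E₂), m K *
        ((if K.map (MonoidHom.fst E₁ E₂) ≤ stabE ι₁ (σ : Set (Subgroup G₁)) then
          (-1) ^ σ.card else 0) *
        (if K.map (MonoidHom.snd E₁ E₂) ≤ stabE ι₂ (τ : Set (Subgroup G₂)) then
          (-1) ^ τ.card else 0)) := by
    intro σ τ
    rw [hm, Finset.sum_filter, Finset.mul_sum, Finset.mul_sum]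
    refine Finset.sum_congr rfl fun K _ => ?_
    by_cases a : K.map (MonoidHom.fst E₁ E₂) ≤ stabE ι₁ (σ : Set (Subgroup G₁)) <;>
    by_cases b : K.map (MonoidHom.snd E₁ E₂) ≤ stabE ι₂ (τ : Set (Subgroup G₂))
    · rw [if_pos (le_prod.2 ⟨a, b⟩), if_pos a, if_pos b]; ring
    · rw [if_neg (fun h => b (le_prod.1 h).2), if_neg b]; ring
    · rw [if_neg (fun h => a (le_prod.1 h).1), if_neg a]; ring
    · rw [if_neg (fun h => a (le_prod.1 h).1), if_neg a]; ring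
  rw [hL]
  simp_rw [hR]
  have h2 : ∀ σ : Finset (Subgroup G₁), ∑ τ ∈ Ch ((SK p O₂ ⊥).erase O₂),
      ∑ K : Subgroup (E₁ × E₂), m K *
        ((if K.map (MonoidHom.fst E₁ E₂) ≤ stabE ι₁ (σ : Set (Subgroup G₁)) then
          (-1 : ℤ) ^ σ.card else 0) *
        (if K.map (MonoidHom.snd E₁ E₂) ≤ stabE ι₂ (τ : Set (Subgroup G₂)) then
          (-1) ^ τ.card else 0)) = ∑ K : Subgroup (E₁ × E₂), m K *
        ((if K.map (MonoidHom.fst E₁ E₂) ≤ stabE ι₁ (σ : Set (Subgroup G₁)) then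
          (-1) ^ σ.card else 0) * ec ((SKE ι₂ p O₂ (K.map (MonoidHom.snd E₁ E₂))).erase O₂)) := by
    intro σ
    rw [Finset.sum_comm]
    refine Finset.sum_congr rfl fun K _ => ?_
    rw [← Finset.mul_sum, ← Finset.mul_sum, sum_stabE]
  simp_rw [h2]
  rw [Finset.sum_comm]
  refine Finset.sum_congr rfl fun K _ => ?_
  rw [← Finset.mul_sum, ← Finset.sum_mul, sum_stabE]

end prod

/-- **The alternating sums of a direct product.** -/
theorem altE_prod {G₁ G₂ E₁ E₂ : Type} [Group G₁] [Group G₂] [Group E₁] [Group E₂] [Finite G₁]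
    [Finite G₂] [Finite E₁] [Finite E₂] {p : ℕ} [Fact p.Prime] {ι₁ : G₁ →* E₁} {ι₂ : G₂ →* E₂}
    (i₁ : Function.Injective ι₁) (i₂ : Function.Injective ι₂)
    {O₁ : Subgroup G₁} {O₂ : Subgroup G₂} (h₁ : IsPGroup p O₁)
    (h₂ : IsPGroup p O₂) (n₁ : (O₁.map ι₁).Normal) (n₂ : (O₂.map ι₂).Normal)
    {ι : Type} (I : Finset ι)
    (f : Subgroup (E₁ × E₂) → ℤ) (a : ι → Subgroup E₁ → ℤ) (b : ι → Subgroup E₂ → ℤ)
    (hf : ∀ (g : G₁ × G₂) (K : Subgroup (E₁ × E₂)), f (conjSub (ι₁.prodMap ι₂ g) K) = f K)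
    (ha : ∀ i (g : G₁) (K : Subgroup E₁), a i (conjSub (ι₁ g) K) = a i K)
    (hb : ∀ i (g : G₂) (K : Subgroup E₂), b i (conjSub (ι₂ g) K) = b i K)
    (h : ∀ (H : Subgroup E₁) (K : Subgroup E₂), f (H.prod K) = ∑ i ∈ I, a i H * b i K) :
    altE (ι₁.prodMap ι₂) p (O₁.prod O₂) f = ∑ i ∈ I, altE ι₁ p O₁ (a i) * altE ι₂ p O₂ (b i) := by
  let _ : Fintype (Subgroup G₁) := Fintype.ofFinite _
  let _ : Fintype (Subgroup G₂) := Fintype.ofFinite _
  let _ : Fintype (Subgroup (G₁ × G₂)) := Fintype.ofFinite _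
  let _ : Fintype (Subgroup (E₁ × E₂)) := Fintype.ofFinite _
  let _ : Fintype {σ : Set (Subgroup G₁) // IsCh p O₁ σ} := Fintype.ofFinite _
  let _ : Fintype {σ : Set (Subgroup G₂) // IsCh p O₂ σ} := Fintype.ofFinite _
  let _ : Fintype {σ : Set (Subgroup (G₁ × G₂)) // IsCh p (O₁.prod O₂) σ} := Fintype.ofFinite _
  have m₁ : O₁.Normal := by
    have := Subgroup.Normal.comap n₁ ι₁
    rwa [Subgroup.comap_map_eq_self_of_injective i₁] at this
  have m₂ : O₂.Normal := by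
    have := Subgroup.Normal.comap n₂ ι₂
    rwa [Subgroup.comap_map_eq_self_of_injective i₂] at this
  have i : Function.Injective (ι₁.prodMap ι₂) := by
    intro x y e
    exact Prod.ext (i₁ (congrArg Prod.fst e)) (i₂ (congrArg Prod.snd e))
  have n : (O₁.prod O₂).Normal := Subgroup.prod_normal O₁ O₂
  have e := card_mul_altE (p := p) i n f hf
  rw [sum_eq_csE (ι₁.prodMap ι₂) (fun H => (Nat.card (H.comap (ι₁.prodMap ι₂)) : ℤ) * f H),
    csE_prod ι₁ ι₂ h₁ h₂ n₁ n₂] at e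
  have e1 : ∀ i, (Nat.card G₁ : ℤ) * altE ι₁ p O₁ (a i) =
      csE ι₁ p O₁ (fun H => (Nat.card (H.comap ι₁) : ℤ) * a i H) := fun i => by
    rw [card_mul_altE (p := p) i₁ m₁ _ (ha i),
      sum_eq_csE ι₁ (fun H => (Nat.card (H.comap ι₁) : ℤ) * a i H)]
  have e2 : ∀ i, (Nat.card G₂ : ℤ) * altE ι₂ p O₂ (b i) =
      csE ι₂ p O₂ (fun H => (Nat.card (H.comap ι₂) : ℤ) * b i H) := fun i => by
    rw [card_mul_altE (p := p) i₂ m₂ _ (hb i),
      sum_eq_csE ι₂ (fun H => (Nat.card (H.comap ι₂) : ℤ) * b i H)]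
  have e3 : (Nat.card (G₁ × G₂) : ℤ) * altE (ι₁.prodMap ι₂) p (O₁.prod O₂) f =
      (Nat.card (G₁ × G₂) : ℤ) * ∑ i ∈ I, altE ι₁ p O₁ (a i) * altE ι₂ p O₂ (b i) := by
    rw [e]
    have e4 : (Nat.card (G₁ × G₂) : ℤ) * ∑ i ∈ I, altE ι₁ p O₁ (a i) * altE ι₂ p O₂ (b i) =
        ∑ i ∈ I, ((Nat.card G₁ : ℤ) * altE ι₁ p O₁ (a i)) *
          ((Nat.card G₂ : ℤ) * altE ι₂ p O₂ (b i)) := by
      rw [Nat.card_prod, Finset.mul_sum]
      push_cast
      exact Finset.sum_congr rfl fun i _ => by ring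
    rw [e4]
    simp_rw [e1, e2, csE, Finset.sum_mul_sum]
    have e5 : ∀ (H : Subgroup E₁) (K : Subgroup E₂),
        (Nat.card ((H.prod K).comap (ι₁.prodMap ι₂)) : ℤ) * f (H.prod K) =
          ∑ i ∈ I, ((Nat.card (H.comap ι₁) : ℤ) * a i H) * ((Nat.card (K.comap ι₂) : ℤ) * b i K) := by
      intro H K
      rw [h, comap_prodMap, Nat.card_congr (Subgroup.prodEquiv _ _).toEquiv, Nat.card_prod,
        Finset.mul_sum]
      push_cast
      exact Finset.sum_congr rfl fun i _ => by ring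
    simp_rw [e5, Finset.mul_sum]
    have e6 : ∀ σ : Finset (Subgroup G₁), ∑ τ ∈ Ch ((SK p O₂ ⊥).erase O₂), ∑ i ∈ I,
        (-1 : ℤ) ^ σ.card * ((-1) ^ τ.card *
          (((Nat.card ((stabE ι₁ (σ : Set (Subgroup G₁))).comap ι₁) : ℤ) *
            a i (stabE ι₁ (σ : Set (Subgroup G₁)))) *
          ((Nat.card ((stabE ι₂ (τ : Set (Subgroup G₂))).comap ι₂) : ℤ) *
            b i (stabE ι₂ (τ : Set (Subgroup G₂)))))) =
        ∑ i ∈ I, ∑ τ ∈ Ch ((SK p O₂ ⊥).erase O₂),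
        (-1 : ℤ) ^ σ.card * ((-1) ^ τ.card *
          (((Nat.card ((stabE ι₁ (σ : Set (Subgroup G₁))).comap ι₁) : ℤ) *
            a i (stabE ι₁ (σ : Set (Subgroup G₁)))) *
          ((Nat.card ((stabE ι₂ (τ : Set (Subgroup G₂))).comap ι₂) : ℤ) *
            b i (stabE ι₂ (τ : Set (Subgroup G₂)))))) := fun σ => Finset.sum_comm
    simp_rw [e6]
    rw [Finset.sum_comm]
    refine Finset.sum_congr rfl fun i _ => Finset.sum_congr rfl fun σ _ =>
      Finset.sum_congr rfl fun τ _ => by ring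
  have hpos : (Nat.card (G₁ × G₂) : ℤ) ≠ 0 := by
    have : 0 < Nat.card (G₁ × G₂) := Nat.card_pos
    exact_mod_cast this.ne'
  exact mul_left_cancel₀ hpos e3

end Pool.Agent.H922DI
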