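import Pool.Agent.H922DI.Inr

/-!
# Fibre products of extensions, subextensions, and Möbius inversion over the inertial groups
-/

set_option autoImplicit false

open scoped Classical

noncomputable section

namespace Pool.Agent.H922DI

open Pool.Agent.Y63.KR (conjSub mem_conjSub chainStabilizer mem_chainStabilizer)
open Pool.Agent.Q99.AS Pool.Agent.Helper884.IC
open Pool.Agent.Q90.WR (card_transport card_filter_eq)

section sub

variable {G E : Type} [Group G] [Group E]

/-- the embedding of `G` into a subgroup `V` of `E` which contains `ι(G)` -/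
def resI (ι : G →* E) (V : Subgroup E) (h : ∀ g, ι g ∈ V) : G →* V := ι.codRestrict V h

theorem resI_apply (ι : G →* E) (V : Subgroup E) (h : ∀ g, ι g ∈ V) (g : G) :
    ((resI ι V h g : V) : E) = ι g := rfl

theorem stabE_res (ι : G →* E) (V : Subgroup E) (h : ∀ g, ι g ∈ V) (σ : Set (Subgroup G)) :
    stabE (resI ι V h) σ = (stabE ι σ).subgroupOf V := by
  ext v
  rw [Subgroup.mem_subgroupOf, stabE, stabE, mem_chainStabilizer, mem_chainStabilizer]
  have key : ∀ P : Subgroup G, conjSub v (P.map (resI ι V h)) = P.map (resI ι V h) ↔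
      conjSub (v : E) (P.map ι) = P.map ι := by
    intro P
    have e1 : P.map ι = (P.map (resI ι V h)).map V.subtype := by
      rw [Subgroup.map_map]
      rfl
    have e2 := map_conjSub V.subtype v (P.map (resI ι V h))
    rw [e1]
    change _ ↔ conjSub (V.subtype v) _ = _
    rw [← e2]
    exact ((Subgroup.map_injective V.subtype_injective).eq_iff).symm
  constructor
  · rintro h1 _ ⟨P, hP, rfl⟩
    exact (key P).1 (h1 _ ⟨P, hP, rfl⟩)
  · rintro h1 _ ⟨P, hP, rfl⟩
    exact (key P).2 (h1 _ ⟨P, hP, rfl⟩)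

theorem altE_res (ι : G →* E) (V : Subgroup E) (h : ∀ g, ι g ∈ V) (p : ℕ) (O : Subgroup G)
    (f : Subgroup V → ℤ) (f' : Subgroup E → ℤ) (hf : ∀ K, f (K.subgroupOf V) = f' K) :
    altE (resI ι V h) p O f = altE ι p O f' := by
  unfold altE
  refine finsum_congr fun c => ?_
  rw [stabE_res, hf]

theorem fix_res (ι : G →* E) (V : Subgroup E) (h : ∀ g, ι g ∈ V) (v : V) {H : Subgroup G}
    (ψ : H → ℂ) : Fix (resI ι V h) v ψ ↔ Fix ι (v : E) ψ := by
  refine forall_congr' fun x => forall_congr' fun y => imp_congr ?_ Iff.rfl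
  rw [Subtype.ext_iff]
  rfl

end sub

section fib

variable {G E G' E' A : Type} [Group G] [Group E] [Group G'] [Group E'] [Group A]

/-- `1 → G → E → A → 1` is exact -/
structure IsExt (ι : G →* E) (π : E →* A) : Prop where
  inj : Function.Injective ι
  surj : Function.Surjective π
  exact : ∀ e : E, π e = 1 ↔ ∃ g, ι g = e

theorem IsExt.map_one {ι : G →* E} {π : E →* A} (h : IsExt ι π) (g : G) : π (ι g) = 1 :=
  (h.exact _).2 ⟨g, rfl⟩

/-- the fibre product `E ×_A E'` -/
def fib (π : E →* A) (π' : E' →* A) : Subgroup (E × E') :=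
  (π.comp (MonoidHom.fst E E')).eqLocus (π'.comp (MonoidHom.snd E E'))

theorem mem_fib {π : E →* A} {π' : E' →* A} {e : E × E'} : e ∈ fib π π' ↔ π e.1 = π' e.2 := Iff.rfl

/-- `G × G' → E ×_A E'` -/
def fibI {ι : G →* E} {π : E →* A} {ι' : G' →* E'} {π' : E' →* A} (h : IsExt ι π)
    (h' : IsExt ι' π') : G × G' →* fib π π' :=
  resI (ι.prodMap ι') (fib π π') fun x => by
    rw [mem_fib]
    exact (h.map_one x.1).trans (h'.map_one x.2).symm

/-- `E ×_A E' → A` -/
def fibP (π : E →* A) (π' : E' →* A) : fib π π' →* A :=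
  (π.comp (MonoidHom.fst E E')).comp (fib π π').subtype

theorem fib_ext {ι : G →* E} {π : E →* A} {ι' : G' →* E'} {π' : E' →* A} (h : IsExt ι π)
    (h' : IsExt ι' π') : IsExt (fibI h h') (fibP π π') := by
  refine ⟨?_, ?_, ?_⟩
  · intro x y e
    have e1 := congrArg Subtype.val e
    exact Prod.ext (h.inj (congrArg Prod.fst e1)) (h'.inj (congrArg Prod.snd e1))
  · intro a
    obtain ⟨e, he⟩ := h.surj a
    obtain ⟨e', he'⟩ := h'.surj a
    exact ⟨⟨(e, e'), mem_fib.2 (he.trans he'.symm)⟩, he⟩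
  · rintro ⟨⟨e, e'⟩, he⟩
    constructor
    · intro h1
      have h2 : π e = 1 := h1
      have h3 : π' e' = 1 := (mem_fib.1 he).symm.trans h2
      obtain ⟨g, hg⟩ := (h.exact e).1 h2
      obtain ⟨g', hg'⟩ := (h'.exact e').1 h3
      exact ⟨(g, g'), Subtype.ext (Prod.ext hg hg')⟩
    · rintro ⟨⟨g, g'⟩, e1⟩
      have e2 : ι g = e := congrArg Prod.fst (congrArg Subtype.val e1)
      change π e = 1
      rw [← e2]
      exact h.map_one g

variable {F : Type} [Field F] (red : integralClosure ℤ ℂ →+* F)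

theorem kGe_fib (p d : ℕ) {ι : G →* E} {π : E →* A} {ι' : G' →* E'} {π' : E' →* A}
    (h : IsExt ι π) (h' : IsExt ι' π') (U : Subgroup A) (χ : G × G' → ℂ)
    (K : Subgroup (E × E')) :
    kGe red p d (fibI h h') (fibP π π') U χ (K.subgroupOf (fib π π')) =
      kF red p d ι ι' π π' U χ K := by
  unfold kGe kF num
  congr 1
  change Nat.card {ϑ : ↥(K.comap (ι.prodMap ι')) → ℂ // IsIrrChar ϑ ∧ Induces red χ ϑ ∧
    Dft p d ϑ ∧ InGe (fibI h h') (fibP π π') U (K.subgroupOf (fib π π')) ϑ} = _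
  refine Nat.card_congr (Equiv.subtypeEquivRight fun ϑ => and_congr_right fun _ =>
    and_congr_right fun _ => and_congr_right fun _ => ?_)
  refine forall_congr' fun u => imp_congr Iff.rfl ?_
  constructor
  · rintro ⟨e, he, f, hu⟩
    have hu1 : π e.1.1 = u := hu
    exact ⟨e.1, he, (fix_res _ _ _ e ϑ).1 f, hu1, (mem_fib.1 e.2).symm.trans hu1⟩
  · rintro ⟨e, he, f, hu, hu'⟩
    exact ⟨⟨e, mem_fib.2 (hu.trans hu'.symm)⟩, he, (fix_res _ _ _ _ ϑ).2 f, hu⟩

/-- **Convolution** for the fibre product of two extensions by the same group `A` -/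
theorem sGe_fib [Finite G] [Finite G'] [Finite E] [Finite E'] {p : ℕ} [Fact p.Prime]
    {ι : G →* E} {π : E →* A} {ι' : G' →* E'} {π' : E' →* A} (h : IsExt ι π) (h' : IsExt ι' π')
    {O : Subgroup G} {O' : Subgroup G'} {χ : G → ℂ} {χ' : G' → ℂ} (hO : IsPGroup p O)
    (hO' : IsPGroup p O') (n : (O.map ι).Normal) (n' : (O'.map ι').Normal) (hχ : IsIrrChar χ)
    (hχ' : IsIrrChar χ') (U : Subgroup A) (d : ℕ) :
    sGe red p (fibI h h') (fibP π π') (O.prod O') U (ten χ χ') d =
      conv (sGe red p ι π O U χ) (sGe red p ι' π' O' U χ') d := by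
  rw [← altF_prod red h.inj h'.inj h.map_one h'.map_one hO hO' n n' hχ hχ' U d]
  unfold sGe
  exact altE_res _ _ _ p _ _ _ fun K => kGe_fib red p d h h' U (ten χ χ') K

end fib

section moebius

variable {G E A : Type} [Group G] [Group E] [Group A]

/-- `N_A(C, ψ)` -/
def inG {ι : G →* E} {π : E →* A} (h : IsExt ι π) (K : Subgroup E) (ψ : K.comap ι → ℂ) :
    Subgroup A where
  carrier := {u | ∃ e ∈ K, Fix ι e ψ ∧ π e = u}
  one_mem' := by
    refine ⟨1, one_mem _, ?_, map_one _⟩
    intro x y e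
    rw [one_mul, inv_one, mul_one] at e
    rw [Subtype.ext (h.inj e)]
  mul_mem' := by
    rintro _ _ ⟨e, he, f, rfl⟩ ⟨e', he', f', rfl⟩
    refine ⟨e * e', mul_mem he he', ?_, map_mul _ _ _⟩
    intro x y hxy
    have h1 : π (e' * ι x * e'⁻¹) = 1 := by
      rw [map_mul, map_mul, h.map_one, map_inv]
      simp
    obtain ⟨z, hz⟩ := (h.exact _).1 h1
    have hzK : z ∈ K.comap ι := by
      rw [Subgroup.mem_comap, hz]
      exact mul_mem (mul_mem he' x.2) (inv_mem he')
    have e1 : ψ ⟨z, hzK⟩ = ψ x := f' x ⟨z, hzK⟩ hz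
    have e2 : ψ y = ψ ⟨z, hzK⟩ := f ⟨z, hzK⟩ y (by
      change ι y = e * ι z * e⁻¹
      rw [hz, hxy]
      group)
    rw [e2, e1]
  inv_mem' := by
    rintro _ ⟨e, he, f, rfl⟩
    refine ⟨e⁻¹, inv_mem he, ?_, map_inv _ _⟩
    intro x y hxy
    refine (f y x ?_).symm
    rw [hxy]
    group

theorem inGe_iff {ι : G →* E} {π : E →* A} (h : IsExt ι π) (K : Subgroup E) (ψ : K.comap ι → ℂ)
    (U : Subgroup A) : InGe ι π U K ψ ↔ U ≤ inG h K ψ := Iff.rfl

theorem inEq_iff {ι : G →* E} {π : E →* A} (h : IsExt ι π) (K : Subgroup E) (ψ : K.comap ι → ℂ)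
    (U : Subgroup A) : InEq ι π U K ψ ↔ inG h K ψ = U := by
  constructor
  · intro h1
    ext u
    exact (h1 u).symm
  · rintro rfl u
    exact Iff.rfl

variable {F : Type} [Field F] (red : integralClosure ℤ ℂ →+* F)

theorem kGe_eq_sum [Finite G] [Fintype (Subgroup A)] (p d : ℕ) {ι : G →* E} {π : E →* A}
    (h : IsExt ι π) (U : Subgroup A) (χ : G → ℂ) (K : Subgroup E) :
    kGe red p d ι π U χ K =
      ∑ W ∈ Finset.univ.filter (fun W : Subgroup A => U ≤ W), kEq red p d ι π W χ K := by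
  have := Fintype.ofFinite G
  have := Fintype.ofFinite (K.comap ι)
  unfold kGe kEq num
  simp_rw [card_filter_eq, inGe_iff h, inEq_iff h]
  rw [Finset.card_eq_sum_card_fiberwise (f := fun ψ => inG h K ψ)
    (t := Finset.univ.filter (fun W : Subgroup A => U ≤ W))]
  · push_cast
    refine Finset.sum_congr rfl fun W hW => ?_
    congr 2
    ext ψ
    simp only [Finset.mem_filter, Finset.mem_univ, true_and] at hW ⊢
    constructor
    · rintro ⟨⟨a, b, c, -⟩, e⟩
      exact ⟨a, b, c, e⟩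
    · rintro ⟨a, b, c, e⟩
      exact ⟨⟨a, b, c, e ▸ hW⟩, e⟩
  · intro ψ hψ
    simp only [Finset.coe_filter, Set.mem_setOf_eq, Finset.mem_univ, true_and,
      Finset.mem_filter] at hψ ⊢
    exact hψ.2.2.2

theorem altE_sum [Finite G] {ι : G →* E} {p : ℕ} {O : Subgroup G} {J : Type} (I : Finset J)
    (f : J → Subgroup E → ℤ) :
    altE ι p O (fun K => ∑ j ∈ I, f j K) = ∑ j ∈ I, altE ι p O (f j) := by
  have : Finite {σ : Set (Subgroup G) // IsCh p O σ} := inferInstance
  let _ : Fintype (Quotient (chSetoid p O)) := Fintype.ofFinite _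
  unfold altE
  simp_rw [finsum_eq_sum_of_fintype, Finset.mul_sum]
  exact Finset.sum_comm

theorem sGe_eq_sum [Finite G] [Fintype (Subgroup A)] (p : ℕ) {ι : G →* E} {π : E →* A}
    (h : IsExt ι π) (O : Subgroup G) (U : Subgroup A) (χ : G → ℂ) (d : ℕ) :
    sGe red p ι π O U χ d =
      ∑ W ∈ Finset.univ.filter (fun W : Subgroup A => U ≤ W), sEq red p ι π O W χ d := by
  unfold sGe sEq
  rw [← altE_sum]
  congr 1
  funext K
  exact kGe_eq_sum red p d h U χ K

/-- Möbius inversion -/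
theorem all_iff [Finite G] [Finite A] (p : ℕ) {ι : G →* E} {π : E →* A}
    (h : IsExt ι π) (O : Subgroup G) (χ : G → ℂ) (d : ℕ) :
    (∀ U : Subgroup A, sEq red p ι π O U χ d = 0) ↔ ∀ U : Subgroup A, sGe red p ι π O U χ d = 0 := by
  let _ : Fintype (Subgroup A) := Fintype.ofFinite _
  constructor
  · intro h1 U
    rw [sGe_eq_sum red p h]
    exact Finset.sum_eq_zero fun W _ => h1 W
  · intro h1 U
    induction U using WellFoundedGT.induction with
    | ind U ih =>
      have h2 := h1 U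
      rw [sGe_eq_sum red p h, Finset.sum_eq_single U] at h2
      · exact h2
      · intro W hW hne
        rw [Finset.mem_filter] at hW
        exact ih W (lt_of_le_of_ne hW.2 (Ne.symm hne))
      · intro hU
        exact absurd (Finset.mem_filter.2 ⟨Finset.mem_univ _, le_rfl⟩) hU

end moebius

section sub2

variable {G E A : Type} [Group G] [Group E] [Group A]

/-- `G → E_U`, where `E_U = π⁻¹(U)` -/
def subI {ι : G →* E} {π : E →* A} (h : IsExt ι π) (U : Subgroup A) : G →* U.comap π :=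
  resI ι (U.comap π) fun g => by
    rw [Subgroup.mem_comap, h.map_one]
    exact one_mem _

/-- `E_U → U` -/
def subP (π : E →* A) (U : Subgroup A) : U.comap π →* U := π.subgroupComap U

theorem sub_ext {ι : G →* E} {π : E →* A} (h : IsExt ι π) (U : Subgroup A) :
    IsExt (subI h U) (subP π U) := by
  refine ⟨?_, ?_, ?_⟩
  · intro x y e
    exact h.inj (congrArg Subtype.val e)
  · rintro ⟨u, hu⟩
    obtain ⟨e, rfl⟩ := h.surj u
    exact ⟨⟨e, hu⟩, rfl⟩
  · rintro ⟨e, he⟩
    constructor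
    · intro h1
      obtain ⟨g, hg⟩ := (h.exact e).1 (congrArg Subtype.val h1)
      exact ⟨g, Subtype.ext hg⟩
    · rintro ⟨g, hg⟩
      have : ι g = e := congrArg Subtype.val hg
      refine Subtype.ext ?_
      change π e = 1
      rw [← this]
      exact h.map_one g

variable {F : Type} [Field F] (red : integralClosure ℤ ℂ →+* F)

/-- the characters with `N_A(C, ψ) ≥ U` are those which are invariant under all of `E_U` -/
theorem sGe_sub (p : ℕ) {ι : G →* E} {π : E →* A} (h : IsExt ι π) (O : Subgroup G)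
    (U : Subgroup A) (χ : G → ℂ) (d : ℕ) :
    sEq red p (subI h U) (subP π U) O ⊤ χ d = sGe red p ι π O U χ d := by
  unfold sGe sEq
  refine altE_res _ _ _ p _ _ _ fun K => ?_
  unfold kGe kEq num
  congr 1
  change Nat.card {ϑ : ↥(K.comap ι) → ℂ // IsIrrChar ϑ ∧ Induces red χ ϑ ∧
    Dft p d ϑ ∧ InEq (subI h U) (subP π U) ⊤ (K.subgroupOf (U.comap π)) ϑ} = _
  refine Nat.card_congr (Equiv.subtypeEquivRight fun ϑ => and_congr_right fun _ =>
    and_congr_right fun _ => and_congr_right fun _ => ?_)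
  constructor
  · intro h1 u hu
    obtain ⟨e, he, f, hπ⟩ := (h1 ⟨u, hu⟩).1 (Subgroup.mem_top _)
    exact ⟨e.1, he, (fix_res _ _ _ e ϑ).1 f, congrArg Subtype.val hπ⟩
  · intro h1 u
    refine ⟨fun _ => ?_, fun _ => Subgroup.mem_top _⟩
    obtain ⟨e, he, f, hπ⟩ := h1 u.1 u.2
    have heU : e ∈ U.comap π := by
      rw [Subgroup.mem_comap, hπ]
      exact u.2
    exact ⟨⟨e, heU⟩, he, (fix_res ι _ _ ⟨e, heU⟩ ϑ).2 f, Subtype.ext hπ⟩

theorem sEq_top (p : ℕ) {ι : G →* E} {π : E →* A} (O : Subgroup G) (χ : G → ℂ) (d : ℕ) :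
    sEq red p ι π O ⊤ χ d = sGe red p ι π O ⊤ χ d := by
  unfold sGe sEq
  congr 1
  funext K
  unfold kGe kEq num
  congr 1
  refine Nat.card_congr (Equiv.subtypeEquivRight fun ϑ => and_congr_right fun _ =>
    and_congr_right fun _ => and_congr_right fun _ => ?_)
  constructor
  · intro h1 u hu
    exact (h1 u).1 hu
  · intro h1 u
    exact ⟨fun _ => h1 u (Subgroup.mem_top _), fun _ => Subgroup.mem_top _⟩

end sub2

end Pool.Agent.H922DI
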