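import Pool.Agent.H922DI.Chn

/-!
# Inertial groups of the characters of chain stabilisers, and their behaviour for direct products
-/

set_option autoImplicit false

open scoped Classical

noncomputable section

namespace Pool.Agent.H922DI

open Pool.Agent.Y63.KR (conjSub mem_conjSub)
open Pool.Agent.Q99.AS Pool.Agent.Helper884.IC
open Pool.Agent.Q90.WR (card_transport)

section fix

variable {G E G' E' : Type} [Group G] [Group E] [Group G'] [Group E']

/-- `e ∈ E` fixes `ψ`, a function on the subgroup `H` of `G` (where `e` normalises `ι(H)`):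
`ψ(y) = ψ(x)` whenever `ι(y) = e ι(x) e⁻¹`. -/
def Fix (ι : G →* E) (e : E) {H : Subgroup G} (ψ : H → ℂ) : Prop :=
  ∀ x y : H, ι y = e * ι x * e⁻¹ → ψ y = ψ x

/-- `N_A(C, ψ) ≥ U` for `K = N_E(C)` and the projection `π : E → A`: each `u ∈ U` is the image of an
element of `K` which fixes `ψ`. -/
def InGe {A : Type} [Group A] (ι : G →* E) (π : E →* A) (U : Subgroup A) (K : Subgroup E)
    {H : Subgroup G} (ψ : H → ℂ) : Prop :=
  ∀ u ∈ U, ∃ e ∈ K, Fix ι e ψ ∧ π e = u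

/-- `N_A(C, ψ) = U` for `K = N_E(C)` and the projection `π : E → A`: the elements of `U` are the images
of the elements of `K` which fix `ψ`. -/
def InEq {A : Type} [Group A] (ι : G →* E) (π : E →* A) (U : Subgroup A) (K : Subgroup E)
    {H : Subgroup G} (ψ : H → ℂ) : Prop :=
  ∀ u : A, u ∈ U ↔ ∃ e ∈ K, Fix ι e ψ ∧ π e = u

theorem comap_conjSub (ι : G →* E) (g : G) (K : Subgroup E) :
    (conjSub (ι g) K).comap ι = conjSub g (K.comap ι) := by
  ext x
  rw [Subgroup.mem_comap, mem_conjSub, mem_conjSub, Subgroup.mem_comap]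
  simp

theorem mem_cj (g : G) (H : Subgroup G) (y : conjSub g H) :
    ∃ x : H, y = cj g H x := by
  obtain ⟨x, hx⟩ := (cj g H).surjective y
  exact ⟨x, hx.symm⟩

theorem fix_conj (ι : G →* E) (g : G) (e : E) (H : Subgroup G) (ϑ : conjSub g H → ℂ) :
    Fix ι e (fun x => ϑ (cj g H x)) ↔ Fix ι (ι g * e * (ι g)⁻¹) ϑ := by
  constructor
  · intro h x y hxy
    obtain ⟨x, rfl⟩ := mem_cj g H x
    obtain ⟨y, rfl⟩ := mem_cj g H y
    refine h x y ?_
    rw [cj_apply, cj_apply] at hxy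
    simp only [map_mul, map_inv] at hxy
    have e1 : ι g * ι y * (ι g)⁻¹ = ι g * (e * ι x * e⁻¹) * (ι g)⁻¹ := by
      rw [hxy]; group
    exact mul_left_cancel (mul_right_cancel e1)
  · intro h x y hxy
    refine h (cj g H x) (cj g H y) ?_
    rw [cj_apply, cj_apply]
    simp only [map_mul, map_inv]
    rw [hxy]
    group

variable {A : Type} [Group A]

theorem ex_conj {ι : G →* E} {π : E →* A} (h0 : ∀ g, π (ι g) = 1) (u : A) (K : Subgroup E) (g : G)
    (H : Subgroup G) (ϑ : conjSub g H → ℂ) :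
    (∃ e ∈ K, Fix ι e (fun x => ϑ (cj g H x)) ∧ π e = u) ↔
      ∃ e ∈ conjSub (ι g) K, Fix ι e ϑ ∧ π e = u := by
  constructor
  · rintro ⟨e, he, h1, rfl⟩
    refine ⟨ι g * e * (ι g)⁻¹, ?_, (fix_conj ι g e H ϑ).1 h1, ?_⟩
    · rw [mem_conjSub]
      have : (ι g)⁻¹ * (ι g * e * (ι g)⁻¹) * ι g = e := by group
      rwa [this]
    · rw [map_mul, map_mul, map_inv, h0]
      simp
  · rintro ⟨e, he, h1, rfl⟩
    rw [mem_conjSub] at he
    have e1 : ι g * ((ι g)⁻¹ * e * ι g) * (ι g)⁻¹ = e := by group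
    refine ⟨(ι g)⁻¹ * e * ι g, he, ?_, ?_⟩
    · rw [fix_conj, e1]
      exact h1
    · rw [map_mul, map_mul, map_inv, h0]
      simp

theorem inGe_conj {ι : G →* E} {π : E →* A} (h0 : ∀ g, π (ι g) = 1) (U : Subgroup A)
    (K : Subgroup E) (g : G) (H : Subgroup G) (ϑ : conjSub g H → ℂ) :
    InGe ι π U K (fun x => ϑ (cj g H x)) ↔ InGe ι π U (conjSub (ι g) K) ϑ :=
  forall_congr' fun u => imp_congr Iff.rfl (ex_conj h0 u K g H ϑ)

theorem fix_prod {ι : G →* E} {ι' : G' →* E'} {H : Subgroup G} {H' : Subgroup G'} {θ : H → ℂ}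
    {ψ : H' → ℂ} (h1 : θ 1 ≠ 0) (h2 : ψ 1 ≠ 0) (e : E) (e' : E') :
    Fix (ι.prodMap ι') (e, e') (H := H.prod H')
      (fun x => ten θ ψ (Subgroup.prodEquiv H H' x)) ↔ Fix ι e θ ∧ Fix ι' e' ψ := by
  constructor
  · intro h
    constructor
    · intro x y hxy
      have := h ((Subgroup.prodEquiv H H').symm (x, 1)) ((Subgroup.prodEquiv H H').symm (y, 1)) (by
        refine Prod.ext hxy ?_
        change ι' 1 = e' * ι' 1 * e'⁻¹
        simp)
      simp only [MulEquiv.apply_symm_apply] at this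
      change θ y * ψ 1 = θ x * ψ 1 at this
      exact mul_right_cancel₀ h2 this
    · intro x y hxy
      have := h ((Subgroup.prodEquiv H H').symm (1, x)) ((Subgroup.prodEquiv H H').symm (1, y)) (by
        refine Prod.ext ?_ hxy
        change ι 1 = e * ι 1 * e⁻¹
        simp)
      simp only [MulEquiv.apply_symm_apply] at this
      change θ 1 * ψ y = θ 1 * ψ x at this
      exact mul_left_cancel₀ h1 this
  · rintro ⟨h, h'⟩ x y hxy
    obtain ⟨⟨x1, x2⟩, rfl⟩ := (Subgroup.prodEquiv H H').symm.surjective x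
    obtain ⟨⟨y1, y2⟩, rfl⟩ := (Subgroup.prodEquiv H H').symm.surjective y
    simp only [MulEquiv.apply_symm_apply]
    change θ y1 * ψ y2 = θ x1 * ψ x2
    rw [h x1 y1 (congrArg Prod.fst hxy), h' x2 y2 (congrArg Prod.snd hxy)]

/-- the condition `N_A(C, ψ) ≥ U` for the fibre product of `E` and `E'` over `A` -/
def InF (ι : G →* E) (ι' : G' →* E') (π : E →* A) (π' : E' →* A) (U : Subgroup A)
    (K : Subgroup (E × E')) {H : Subgroup (G × G')} (ψ : H → ℂ) : Prop :=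
  ∀ u ∈ U, ∃ e ∈ K, Fix (ι.prodMap ι') e ψ ∧ π e.1 = u ∧ π' e.2 = u

theorem inF_prod {ι : G →* E} {ι' : G' →* E'} {π : E →* A} {π' : E' →* A} {H : Subgroup G}
    {H' : Subgroup G'} {θ : H → ℂ} {ψ : H' → ℂ} (h1 : θ 1 ≠ 0) (h2 : ψ 1 ≠ 0) (U : Subgroup A)
    (K : Subgroup E) (K' : Subgroup E') :
    InF ι ι' π π' U (K.prod K') (H := H.prod H')
      (fun x => ten θ ψ (Subgroup.prodEquiv H H' x)) ↔ InGe ι π U K θ ∧ InGe ι' π' U K' ψ := by
  constructor
  · intro h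
    constructor
    · intro u hu
      obtain ⟨⟨e, e'⟩, he, f, h3, -⟩ := h u hu
      exact ⟨e, he.1, ((fix_prod h1 h2 e e').1 f).1, h3⟩
    · intro u hu
      obtain ⟨⟨e, e'⟩, he, f, -, h3⟩ := h u hu
      exact ⟨e', he.2, ((fix_prod h1 h2 e e').1 f).2, h3⟩
  · rintro ⟨h, h'⟩ u hu
    obtain ⟨e, he, f, hg⟩ := h u hu
    obtain ⟨e', he', f', hg'⟩ := h' u hu
    exact ⟨(e, e'), ⟨he, he'⟩, (fix_prod h1 h2 e e').2 ⟨f, f'⟩, hg, hg'⟩

theorem inF_conj {ι : G →* E} {ι' : G' →* E'} {π : E →* A} {π' : E' →* A}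
    (h0 : ∀ g, π (ι g) = 1) (h0' : ∀ g, π' (ι' g) = 1) (U : Subgroup A)
    (K : Subgroup (E × E')) (g : G × G') (H : Subgroup (G × G')) (ϑ : conjSub g H → ℂ) :
    InF ι ι' π π' U K (fun x => ϑ (cj g H x)) ↔
      InF ι ι' π π' U (conjSub (ι.prodMap ι' g) K) ϑ := by
  refine forall_congr' fun u => imp_congr Iff.rfl ?_
  have h := ex_conj (ι := ι.prodMap ι') (π := π.prodMap π')
    (fun x => Prod.ext (h0 x.1) (h0' x.2)) (u, u) K g H ϑ
  simpa only [Prod.ext_iff, MonoidHom.coe_prodMap, Prod.map_fst, Prod.map_snd] using h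

end fix

section sums

variable {F : Type} [Field F] (red : integralClosure ℤ ℂ →+* F)
variable {G E G' E' : Type} [Group G] [Group E] [Group G'] [Group E']

theorem num_conj' (χ : G → ℂ) {Q Q' : ∀ H : Subgroup G, (H → ℂ) → Prop} (g : G) (H : Subgroup G)
    (hQ : ∀ ϑ : conjSub g H → ℂ, Q H (fun x => ϑ (cj g H x)) ↔ Q' (conjSub g H) ϑ) :
    num red χ Q' (conjSub g H) = num red χ Q H := by
  unfold num
  rw [card_transport (cj g H)]
  congr 1
  refine Nat.card_congr (Equiv.subtypeEquivRight fun ϑ => and_congr_right fun _ =>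
    and_congr ?_ (hQ ϑ).symm)
  unfold Induces
  refine forall_congr' fun y => ?_
  rw [lam_congr red (cj g H) H.subtype (conjSub g H).subtype]
  intro x
  exact isConj_iff.2 ⟨g, rfl⟩

variable {A : Type} [Group A]

/-- `∑_{W ≥ U} k_C(B, d, W)` for the chain `C` with `N_E(C) = K`, `N_G(C) = ι⁻¹(K)`, where `B` is the
block of `χ`: the number of the `ψ ∈ Irr(N_G(C))` of `p`-defect `d` with `bl(ψ)^G = B` and
`N_A(C, ψ) ≥ U`. -/
def kGe (p d : ℕ) (ι : G →* E) (π : E →* A) (U : Subgroup A) (χ : G → ℂ) (K : Subgroup E) : ℤ :=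
  num red χ (fun _ ψ => Dft p d ψ ∧ InGe ι π U K ψ) (K.comap ι)

/-- `k_C(B, d, U)` for the chain `C` with `N_E(C) = K`, `N_G(C) = ι⁻¹(K)`, where `B` is the
block of `χ`: the number of the `ψ ∈ Irr(N_G(C))` of `p`-defect `d` with `bl(ψ)^G = B` and
`N_A(C, ψ) = U`. -/
def kEq (p d : ℕ) (ι : G →* E) (π : E →* A) (U : Subgroup A) (χ : G → ℂ) (K : Subgroup E) : ℤ :=
  num red χ (fun _ ψ => Dft p d ψ ∧ InEq ι π U K ψ) (K.comap ι)

/-- the number of the characters for the fibre product -/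
def kF (p d : ℕ) (ι : G →* E) (ι' : G' →* E') (π : E →* A) (π' : E' →* A) (U : Subgroup A)
    (χ : G × G' → ℂ) (K : Subgroup (E × E')) : ℤ :=
  num red χ (fun _ ψ => Dft p d ψ ∧ InF ι ι' π π' U K ψ) (K.comap (ι.prodMap ι'))

theorem kGe_conj (p d : ℕ) {ι : G →* E} {π : E →* A} (h0 : ∀ g, π (ι g) = 1) (U : Subgroup A)
    (χ : G → ℂ) (g : G) (K : Subgroup E) :
    kGe red p d ι π U χ (conjSub (ι g) K) = kGe red p d ι π U χ K := by
  unfold kGe
  rw [comap_conjSub]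
  exact num_conj' red χ g (K.comap ι) fun ϑ =>
    and_congr (Dft_congr _ _) (inGe_conj h0 U K g (K.comap ι) ϑ)

theorem kF_conj (p d : ℕ) {ι : G →* E} {ι' : G' →* E'} {π : E →* A} {π' : E' →* A}
    (h0 : ∀ g, π (ι g) = 1) (h0' : ∀ g, π' (ι' g) = 1) (U : Subgroup A)
    (χ : G × G' → ℂ) (g : G × G') (K : Subgroup (E × E')) :
    kF red p d ι ι' π π' U χ (conjSub (ι.prodMap ι' g) K) = kF red p d ι ι' π π' U χ K := by
  unfold kF
  rw [comap_conjSub]
  exact num_conj' red χ g (K.comap (ι.prodMap ι')) fun ϑ =>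
    and_congr (Dft_congr _ _) (inF_conj h0 h0' U K g (K.comap (ι.prodMap ι')) ϑ)

theorem kF_prod [Finite G] [Finite G'] {p : ℕ} {ι : G →* E} {ι' : G' →* E'} {π : E →* A}
    {π' : E' →* A} {χ : G → ℂ} {χ' : G' → ℂ} (hχ : IsIrrChar χ) (hχ' : IsIrrChar χ')
    (U : Subgroup A) (K : Subgroup E) (K' : Subgroup E') (d : ℕ) :
    kF red p d ι ι' π π' U (ten χ χ') (K.prod K') =
      ∑ i ∈ Finset.HasAntidiagonal.antidiagonal d,
        kGe red p i.1 ι π U χ K * kGe red p i.2 ι' π' U χ' K' := by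
  unfold kF kGe
  rw [comap_prodMap]
  refine num_prod red hχ hχ' (Finset.HasAntidiagonal.antidiagonal d) _
    (fun (i : ℕ × ℕ) H ϑ => Dft p i.1 ϑ ∧ InGe ι π U K ϑ)
    (fun (i : ℕ × ℕ) H ϑ => Dft p i.2 ϑ ∧ InGe ι' π' U K' ϑ) (K.comap ι) (K'.comap ι')
    (fun θ ψ h1 h2 => ?_) (fun θ ψ i hi j hj h1 h2 h3 h4 => ?_)
  · have e : Dft p d (fun x => ten θ ψ (Subgroup.prodEquiv (K.comap ι) (K'.comap ι') x)) ↔
        Dft p d (ten θ ψ) := Dft_congr (Subgroup.prodEquiv (K.comap ι) (K'.comap ι')) (ten θ ψ)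
    rw [e, Dft_ten h1 h2, inF_prod (irr_one_ne' h1) (irr_one_ne' h2)]
    constructor
    · rintro ⟨⟨i, hi, a, b⟩, c, d⟩
      exact ⟨i, hi, ⟨a, c⟩, b, d⟩
    · rintro ⟨i, hi, ⟨a, c⟩, b, d⟩
      exact ⟨⟨i, hi, a, b⟩, c, d⟩
  · exact Prod.ext (Dft_unique h1.1 h3.1) (Dft_unique h2.1 h4.1)

/-- Dade's alternating sum `∑_C (-1)^|C| k_C(B, d, ≥ U)`, over representatives of the `G`-classes of
the chains `C` of `p`-subgroups of `G` which start at `O`; `B` is the block of `χ`. -/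
def sGe (p : ℕ) (ι : G →* E) (π : E →* A) (O : Subgroup G) (U : Subgroup A) (χ : G → ℂ) (d : ℕ) : ℤ :=
  altE ι p O (kGe red p d ι π U χ)

/-- Dade's alternating sum `∑_C (-1)^|C| k_C(B, d, U)`, over representatives of the `G`-classes of
the chains `C` of `p`-subgroups of `G` which start at `O`; `B` is the block of `χ`. -/
def sEq (p : ℕ) (ι : G →* E) (π : E →* A) (O : Subgroup G) (U : Subgroup A) (χ : G → ℂ) (d : ℕ) : ℤ :=
  altE ι p O (kEq red p d ι π U χ)

theorem altE_zero {p : ℕ} {ι : G →* E} {O : Subgroup G} {f : Subgroup E → ℤ}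
    (h : ∀ K, f K = 0) : altE ι p O f = 0 := by
  unfold altE
  simp only [h, mul_zero, finsum_zero]

theorem sGe_supp [Finite G] {p : ℕ} (ι : G →* E) (π : E →* A) (O : Subgroup G) (U : Subgroup A)
    (χ : G → ℂ) {d : ℕ} (hd : Nat.log 2 (Nat.card G) < d) (hp : p.Prime) :
    sGe red p ι π O U χ d = 0 := by
  refine altE_zero fun K => ?_
  unfold kGe num
  have : IsEmpty {ϑ : K.comap ι → ℂ // IsIrrChar ϑ ∧ Induces red χ ϑ ∧ Dft p d ϑ ∧
      InGe ι π U K ϑ} := by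
    refine ⟨?_⟩
    rintro ⟨ϑ, -, -, h, -⟩
    have h1 := Dft_le h
    have h2 : 2 ^ (Nat.card (K.comap ι)).factorization p ≤ Nat.card G := by
      calc 2 ^ (Nat.card (K.comap ι)).factorization p
          ≤ p ^ (Nat.card (K.comap ι)).factorization p := Nat.pow_le_pow_left hp.two_le _
        _ ≤ Nat.card (K.comap ι) := Nat.le_of_dvd Nat.card_pos (Nat.ordProj_dvd _ _)
        _ ≤ Nat.card G := Nat.le_of_dvd Nat.card_pos (Subgroup.card_subgroup_dvd_card _)
    have h3 := Nat.le_log_of_pow_le (b := 2) (by norm_num) h2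
    omega
  rw [Nat.card_of_isEmpty]
  rfl

theorem altF_prod [Finite G] [Finite G'] [Finite E] [Finite E'] {p : ℕ} [Fact p.Prime]
    {ι : G →* E} {ι' : G' →* E'} {π : E →* A} {π' : E' →* A} (i : Function.Injective ι)
    (i' : Function.Injective ι') (h0 : ∀ g, π (ι g) = 1) (h0' : ∀ g, π' (ι' g) = 1)
    {O : Subgroup G} {O' : Subgroup G'} {χ : G → ℂ} {χ' : G' → ℂ} (hO : IsPGroup p O)
    (hO' : IsPGroup p O') (n : (O.map ι).Normal) (n' : (O'.map ι').Normal) (hχ : IsIrrChar χ)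
    (hχ' : IsIrrChar χ') (U : Subgroup A) (d : ℕ) :
    altE (ι.prodMap ι') p (O.prod O') (kF red p d ι ι' π π' U (ten χ χ')) =
      conv (sGe red p ι π O U χ) (sGe red p ι' π' O' U χ') d := by
  unfold sGe conv
  exact altE_prod i i' hO hO' n n' (Finset.HasAntidiagonal.antidiagonal d) _
    (fun j : ℕ × ℕ => kGe red p j.1 ι π U χ) (fun j : ℕ × ℕ => kGe red p j.2 ι' π' U χ')
    (fun g K => kF_conj red p d h0 h0' _ _ g K) (fun j g K => kGe_conj red p j.1 h0 U χ g K)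
    (fun j g K => kGe_conj red p j.2 h0' U χ' g K)
    (fun H K => kF_prod red hχ hχ' U H K d)

end sums

end Pool.Agent.H922DI
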