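import Pool.Agent.H922DI.Rad1

set_option autoImplicit false

open scoped Classical

noncomputable section

namespace Pool.Agent.H922DI

open Pool.Agent.Y63.KR (conjSub mem_conjSub chainStabilizer mem_chainStabilizer conjSub_eq_iff)
open Pool.Agent.Q99.AS

section stages

variable {G E : Type} [Group G] [Group E] [Finite G] [Fintype (Subgroup G)] {p : ℕ}
  [Fact p.Prime] {O : Subgroup G} {ι : G →* E}

theorem key1 (hι : Function.Injective ι) (hN : ι.range.Normal) {σ : Finset (Subgroup G)}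
    (hch : IsCh p O (σ : Set (Subgroup G))) (hn : ¬ Nrm (σ : Set (Subgroup G))) :
    IsCh p O (tog (L1 σ) σ : Set (Subgroup G)) ∧ ¬ Nrm (tog (L1 σ) σ : Set (Subgroup G)) ∧
      L1 (tog (L1 σ) σ) = L1 σ ∧ stabE ι (tog (L1 σ) σ : Set (Subgroup G)) =
        stabE ι (σ : Set (Subgroup G)) := by
  obtain ⟨a, haσ, c, hcσ, ea, ec, eL, hbad, hcand, hac, hcn, haL, hLc, hcomp⟩ :=
    stage1_data hch.chain (fun P hP => hch.isPGroup P hP) hn
  set L := L1 σ with hL
  have haL' : a ≠ L := haL.ne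
  have hcL' : c ≠ L := hLc.ne'
  have haσ' : a ∈ tog L σ := (mem_tog haL').2 haσ
  have hcσ' : c ∈ tog L σ := (mem_tog hcL').2 hcσ
  have hc1 : IsChain (· ≤ ·) (tog L σ : Set (Subgroup G)) := by
    have h1 : ∀ Q ∈ σ, Q ≤ L ∨ L ≤ Q := fun Q hQ =>
      (hcomp Q hQ).elim (fun h => Or.inr (hLc.le.trans h)) Or.inl
    intro x hx y hy hxy
    have hx := Finset.mem_coe.1 hx
    have hy := Finset.mem_coe.1 hy
    by_cases h2 : x = L
    · by_cases h3 : y = L
      · exact absurd (h2.trans h3.symm) hxy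
      · rw [h2]
        exact (h1 y ((mem_tog h3).1 hy)).symm
    · by_cases h3 : y = L
      · rw [h3]
        exact h1 x ((mem_tog h2).1 hx)
      · exact hch.chain ((mem_tog h2).1 hx) ((mem_tog h3).1 hy) hxy
  have hn1 : ¬ Nrm (tog L σ : Set (Subgroup G)) := fun h => hcn (h a haσ' c hcσ' hac)
  have hmem : IsCh p O (tog L σ : Set (Subgroup G)) := by
    refine ⟨hc1, fun P hP => ?_, fun P hP => ?_⟩
    · by_cases h2 : P = L
      · rw [h2]
        exact (hch.isPGroup c hcσ).to_le hLc.le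
      · exact hch.isPGroup P ((mem_tog h2).1 (Finset.mem_coe.1 hP))
    · by_cases h2 : P = L
      · rw [h2]
        exact (hch.lt a haσ).trans haL
      · exact hch.lt P ((mem_tog h2).1 (Finset.mem_coe.1 hP))
  refine ⟨hmem, hn1, ?_, ?_⟩
  · have e1 : lst (bad1 (tog L σ)) = a := by
      refine lst_eq (Finset.mem_filter.2 ⟨haσ', c, hcσ', hac, hcn⟩) fun P hP => ?_
      obtain ⟨hP1, Q, hQ, hPQ, hQn⟩ := Finset.mem_filter.1 hP
      by_cases h2 : P = L
      · rw [h2]
        exact haL.le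
      · have hPσ := (mem_tog h2).1 hP1
        by_cases h3 : Q = L
        · by_contra h4
          have h5 : c ≤ Subgroup.normalizer (P : Set G) := by
            by_contra h6
            exact h4 (hbad P (Finset.mem_filter.2 ⟨hPσ, c, hcσ, by
              rw [h3] at hPQ
              exact hPQ.trans hLc.le, h6⟩))
          rw [h3] at hQn
          exact hQn (hLc.le.trans h5)
        · exact hbad P (Finset.mem_filter.2 ⟨hPσ, Q, (mem_tog h3).1 hQ, hPQ, hQn⟩)
    have e2 : lst (cand (tog L σ) a) = c := by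
      refine lst_eq (Finset.mem_filter.2 ⟨hcσ', hac, hcn⟩) fun Q hQ => ?_
      obtain ⟨hQ1, haQ, hQn⟩ := Finset.mem_filter.1 hQ
      by_cases h2 : Q = L
      · exfalso
        apply hQn
        rw [h2, eL]
        exact inf_le_right
      · exact hcand Q (Finset.mem_filter.2 ⟨(mem_tog h2).1 hQ1, haQ, hQn⟩)
    change lst (cand (tog L σ) (lst (bad1 (tog L σ)))) ⊓
      Subgroup.normalizer ((lst (bad1 (tog L σ)) : Subgroup G) : Set G) = L
    rw [e1, e2, eL]
  · refine stabE_tog hι hN σ L fun α hα => map_eq_of_le α ?_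
    have fa := hα a haσ haL'
    have fc := hα c hcσ hcL'
    rintro _ ⟨g, hg, rfl⟩
    rw [eL] at hg ⊢
    obtain ⟨hg1, hg2⟩ := Subgroup.mem_inf.1 hg
    refine Subgroup.mem_inf.2 ⟨?_, ?_⟩
    · rw [← fc]
      exact ⟨g, hg1, rfl⟩
    · rw [← conjSub_eq_iff]
      have h1 := map_conjSub α.toMonoidHom g a
      rw [conjSub_eq_iff.2 hg2, fa] at h1
      exact h1.symm

end stages

end Pool.Agent.H922DI
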