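import Pool.Agent.H922DI.Rad1

set_option autoImplicit false

open scoped Classical

noncomputable section

namespace Pool.Agent.H922DI

open Pool.Agent.Y63.KR (conjSub mem_conjSub chainStabilizer mem_chainStabilizer conjSub_eq_iff)
open Pool.Agent.Q99.AS

section stages

variable {G E : Type} [Group G] [Group E] [Finite G] [Fintype (Subgroup G)] {p : ℕ}
  [Fact p.Prime] {O : Subgroup G} {ι : G →* E}

theorem key2 (hι : Function.Injective ι) (hN : ι.range.Normal) {σ : Finset (Subgroup G)}
    (hch : IsCh p O (σ : Set (Subgroup G))) (hn : Nrm (σ : Set (Subgroup G)))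
    (hr : ¬ Rad p (σ : Set (Subgroup G))) :
    IsCh p O (tog (L2 p σ) σ : Set (Subgroup G)) ∧ Nrm (tog (L2 p σ) σ : Set (Subgroup G)) ∧
      ¬ Rad p (tog (L2 p σ) σ : Set (Subgroup G)) ∧
      L2 p (tog (L2 p σ) σ) = L2 p σ ∧ stabE ι (tog (L2 p σ) σ : Set (Subgroup G)) =
        stabE ι (σ : Set (Subgroup G)) := by
  obtain ⟨M, hMσ, eM, hMbad, hbad, eL, hML, hcomp⟩ :=
    stage2_data hch.chain (fun P hP => hch.isPGroup P hP) hn hr
  set R := L2 p σ with hRdef
  set H := chainStabilizer (lowr (σ : Set (Subgroup G)) M) with hH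
  have hR : IsOp p H R := by
    rw [eL]
    exact op_spec p H
  have hMR : M ≠ R := hML.ne
  have hMσ' : M ∈ tog R σ := (mem_tog hMR).2 hMσ
  have hMn := (Finset.mem_filter.1 hMbad).2
  have hlow : lowr (tog R σ : Set (Subgroup G)) M = lowr (σ : Set (Subgroup G)) M := by
    ext Q
    constructor
    · rintro ⟨h1, h2⟩
      have h3 : Q ≠ R := fun e => absurd (e ▸ h2) (not_le_of_gt hML)
      exact ⟨(mem_tog h3).1 (Finset.mem_coe.1 h1), h2⟩
    · rintro ⟨h1, h2⟩
      have h3 : Q ≠ R := fun e => absurd (e ▸ h2) (not_le_of_gt hML)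
      exact ⟨Finset.mem_coe.2 ((mem_tog h3).2 h1), h2⟩
  have hc1 : IsChain (· ≤ ·) (tog R σ : Set (Subgroup G)) := by
    have h1 : ∀ Q ∈ σ, Q ≤ R ∨ R ≤ Q := fun Q hQ =>
      (hcomp Q hQ).elim (fun h => Or.inl (h.trans hML.le)) Or.inr
    intro x hx y hy hxy
    have hx := Finset.mem_coe.1 hx
    have hy := Finset.mem_coe.1 hy
    by_cases h2 : x = R
    · by_cases h3 : y = R
      · exact absurd (h2.trans h3.symm) hxy
      · rw [h2]
        exact (h1 y ((mem_tog h3).1 hy)).symm
    · by_cases h3 : y = R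
      · rw [h3]
        exact h1 x ((mem_tog h2).1 hx)
      · exact hch.chain ((mem_tog h2).1 hx) ((mem_tog h3).1 hy) hxy
  have hmem : IsCh p O (tog R σ : Set (Subgroup G)) := by
    refine ⟨hc1, fun P hP => ?_, fun P hP => ?_⟩
    · by_cases h2 : P = R
      · rw [h2]
        exact hR.isPGroup
      · exact hch.isPGroup P ((mem_tog h2).1 (Finset.mem_coe.1 hP))
    · by_cases h2 : P = R
      · rw [h2]
        exact (hch.lt M hMσ).trans hML
      · exact hch.lt P ((mem_tog h2).1 (Finset.mem_coe.1 hP))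
  have hn1 : Nrm (tog R σ : Set (Subgroup G)) := by
    intro P hP Q hQ hPQ
    have hP := Finset.mem_coe.1 hP
    have hQ := Finset.mem_coe.1 hQ
    by_cases h2 : P = R
    · by_cases h3 : Q = R
      · rw [h2, h3]
        exact Subgroup.le_normalizer
      · rw [h2] at hPQ ⊢
        refine le_trans (le_stab.2 fun S hS => ?_) hR.normal
        exact hn S hS.1 Q ((mem_tog h3).1 hQ) (hS.2.trans (hML.le.trans hPQ))
    · by_cases h3 : Q = R
      · have hPσ := (mem_tog h2).1 hP
        rcases hcomp P hPσ with h4 | h4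
        · rw [h3]
          exact hR.le.trans (le_stab.1 le_rfl P ⟨hPσ, h4⟩)
        · rw [h3] at hPQ
          exact absurd (le_antisymm hPQ h4) h2
      · exact hn P ((mem_tog h2).1 hP) Q ((mem_tog h3).1 hQ) hPQ
  have hMbad' : M ∈ bad2 p (tog R σ) := by
    refine Finset.mem_filter.2 ⟨hMσ', ?_⟩
    rw [hlow]
    exact hMn
  have hr1 : ¬ Rad p (tog R σ : Set (Subgroup G)) := fun h =>
    (Finset.mem_filter.1 hMbad').2 (h M (Finset.mem_coe.2 hMσ'))
  have hgst : gst (bad2 p (tog R σ)) = M := by
    refine gst_eq hMbad' fun P hP => ?_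
    by_contra hPM
    obtain ⟨hP1, hP2⟩ := Finset.mem_filter.1 hP
    by_cases h2 : P = R
    · apply hP2
      have heq : chainStabilizer (lowr (tog R σ : Set (Subgroup G)) P) = H := by
        apply le_antisymm
        · refine le_stab.2 fun Q hQ => ?_
          have h3 : Q ≠ R := fun e => absurd (e ▸ hQ.2) (not_le_of_gt hML)
          refine le_stab.1 le_rfl Q ⟨Finset.mem_coe.2 ((mem_tog h3).2 hQ.1), ?_⟩
          rw [h2]
          exact hQ.2.trans hML.le
        · refine le_stab.2 fun Q hQ => ?_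
          by_cases h3 : Q = R
          · rw [h3]
            exact hR.normal
          · have hQσ := (mem_tog h3).1 (Finset.mem_coe.1 hQ.1)
            rcases hcomp Q hQσ with h4 | h4
            · exact le_stab.1 le_rfl Q ⟨hQσ, h4⟩
            · exact absurd (le_antisymm (by rw [← h2]; exact hQ.2) h4) h3
      rw [heq, h2]
      exact hR
    · have hPσ := (mem_tog h2).1 hP1
      have hMP : M ≤ P := by
        rcases hch.chain.total hMσ hPσ with h | h
        · exact h
        · exact absurd h hPM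
      have hrad : IsOp p (chainStabilizer (lowr (σ : Set (Subgroup G)) P)) P := by
        by_contra h
        exact hPM (hbad P (Finset.mem_filter.2 ⟨hPσ, h⟩))
      apply hP2
      have heq : chainStabilizer (lowr (tog R σ : Set (Subgroup G)) P) =
          chainStabilizer (lowr (σ : Set (Subgroup G)) P) := by
        have hH1 : chainStabilizer (lowr (tog R σ : Set (Subgroup G)) P) ≤ H := by
          refine le_stab.2 fun Q hQ => ?_
          have h3 : Q ≠ R := fun e => absurd (e ▸ hQ.2) (not_le_of_gt hML)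
          exact le_stab.1 le_rfl Q ⟨Finset.mem_coe.2 ((mem_tog h3).2 hQ.1), hQ.2.trans hMP⟩
        have hH2 : chainStabilizer (lowr (σ : Set (Subgroup G)) P) ≤ H :=
          le_stab.2 fun Q hQ => le_stab.1 le_rfl Q ⟨hQ.1, hQ.2.trans hMP⟩
        apply le_antisymm
        · refine le_stab.2 fun Q hQ => ?_
          by_cases h3 : Q = R
          · rw [h3]
            exact hH1.trans hR.normal
          · exact le_stab.1 le_rfl Q ⟨Finset.mem_coe.2 ((mem_tog h3).2 hQ.1), hQ.2⟩
        · refine le_stab.2 fun Q hQ => ?_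
          by_cases h3 : Q = R
          · rw [h3]
            exact hH2.trans hR.normal
          · exact le_stab.1 le_rfl Q ⟨(mem_tog h3).1 (Finset.mem_coe.1 hQ.1), hQ.2⟩
      rw [heq]
      exact hrad
  refine ⟨hmem, hn1, hr1, ?_, ?_⟩
  · change Op p (chainStabilizer (lowr (tog R σ : Set (Subgroup G)) (gst (bad2 p (tog R σ))))) = R
    rw [hgst, hlow, eL]
  · refine stabE_tog hι hN σ R fun α hα => hR.map_eq α (map_stab α fun Q hQ => ?_)
    have h3 : Q ≠ R := fun e => absurd (e ▸ hQ.2) (not_le_of_gt hML)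
    exact hα Q hQ.1 h3

end stages

end Pool.Agent.H922DI
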