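import Pool.Agent.H922DI.Fib

/-!
# The largest normal `p`-subgroup, and toggling a member of a chain
-/

set_option autoImplicit false

open scoped Classical Pointwise

noncomputable section

namespace Pool.Agent.H922DI

open Pool.Agent.Y63.KR (conjSub mem_conjSub chainStabilizer mem_chainStabilizer conjSub_eq_iff)
open Pool.Agent.Q99.AS

section op

variable {G : Type} [Group G] {p : ℕ}

/-- `P = O_p(H)`: `P` is the largest normal `p`-subgroup of the subgroup `H`. -/
structure IsOp (p : ℕ) (H P : Subgroup G) : Prop where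
  le : P ≤ H
  normal : H ≤ Subgroup.normalizer (P : Set G)
  isPGroup : IsPGroup p P
  largest : ∀ R : Subgroup G, R ≤ H → H ≤ Subgroup.normalizer (R : Set G) → IsPGroup p R → R ≤ P

theorem IsOp.unique {H P Q : Subgroup G} (h : IsOp p H P) (h' : IsOp p H Q) : P = Q :=
  le_antisymm (h'.largest P h.le h.normal h.isPGroup) (h.largest Q h'.le h'.normal h'.isPGroup)

theorem sup_normalizer {H R R' : Subgroup G} (h : H ≤ Subgroup.normalizer (R : Set G))
    (h' : H ≤ Subgroup.normalizer (R' : Set G)) :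
    H ≤ Subgroup.normalizer ((R ⊔ R' : Subgroup G) : Set G) := by
  intro x hx
  rw [← conjSub_eq_iff]
  have e1 := conjSub_eq_iff.2 (h hx)
  have e2 := conjSub_eq_iff.2 (h' hx)
  have : conjSub x (R ⊔ R') = conjSub x R ⊔ conjSub x R' := Subgroup.map_sup _ _ _
  rw [this, e1, e2]

theorem exists_op [Finite G] (p : ℕ) [Fact p.Prime] (H : Subgroup G) : ∃ P, IsOp p H P := by
  have hfin : {R : Subgroup G | R ≤ H ∧ H ≤ Subgroup.normalizer (R : Set G) ∧
      IsPGroup p R}.Finite := Set.toFinite _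
  obtain ⟨m, hm⟩ := hfin.exists_maximal ⟨⊥, bot_le, by
    rw [Subgroup.normalizer_eq_top_iff.2 inferInstance]
    exact le_top, IsPGroup.of_bot⟩
  obtain ⟨⟨h1, h2, h3⟩, h4⟩ := hm
  refine ⟨m, h1, h2, h3, fun R hR hR' hp => ?_⟩
  have h5 : m ⊔ R ≤ m := h4 ⟨sup_le h1 hR, sup_normalizer h2 hR',
    IsPGroup.to_sup_of_normal_right' h3 hp (h1.trans hR')⟩ le_sup_left
  exact le_sup_right.trans h5

/-- `O_p(H)` -/
def Op (p : ℕ) (H : Subgroup G) : Subgroup G :=
  if h : ∃ P, IsOp p H P then h.choose else ⊥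

theorem op_spec [Finite G] (p : ℕ) [Fact p.Prime] (H : Subgroup G) : IsOp p H (Op p H) := by
  unfold Op
  rw [dif_pos (exists_op p H)]
  exact (exists_op p H).choose_spec

theorem IsOp.map {G' : Type} [Group G'] {H P : Subgroup G} (h : IsOp p H P) (a : G ≃* G') :
    IsOp p (H.map a.toMonoidHom) (P.map a.toMonoidHom) := by
  refine ⟨Subgroup.map_mono h.le, map_le_normalizer _ h.normal, h.isPGroup.map _,
    fun R hR hR' hp => ?_⟩
  have h1 : R.map a.symm.toMonoidHom ≤ P := by
    refine h.largest _ ?_ ?_ (hp.map _)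
    · rintro _ ⟨x, hx, rfl⟩
      obtain ⟨y, hy, rfl⟩ := hR hx
      simpa using hy
    · have h2 := map_le_normalizer a.symm.toMonoidHom hR'
      have h3 : (H.map a.toMonoidHom).map a.symm.toMonoidHom = H := by
        rw [Subgroup.map_map]
        have : a.symm.toMonoidHom.comp a.toMonoidHom = MonoidHom.id G := by
          ext x
          simp
        rw [this, Subgroup.map_id]
      rwa [h3] at h2
  intro x hx
  refine ⟨a.symm x, h1 ⟨x, hx, rfl⟩, by simp⟩

theorem IsOp.map_eq {H P : Subgroup G} (h : IsOp p H P) (a : G ≃* G)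
    (hH : H.map a.toMonoidHom = H) : P.map a.toMonoidHom = P := by
  have h1 := h.map a
  rw [hH] at h1
  exact h1.unique h

/-- normalisers grow in `p`-groups -/
theorem grow [Finite G] [Fact p.Prime] {a c : Subgroup G} (hc : IsPGroup p c) (h : a < c) :
    ∃ x ∈ c, x ∈ Subgroup.normalizer (a : Set G) ∧ x ∉ a := by
  have hn : Group.IsNilpotent c := hc.isNilpotent
  have h1 : a.subgroupOf c < ⊤ := by
    rw [lt_top_iff_ne_top]
    intro e
    rw [Subgroup.subgroupOf_eq_top] at e
    exact not_le_of_gt h e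
  have h2 := Group.normalizerCondition_of_isNilpotent (G := c) _ h1
  obtain ⟨x, hx, hx'⟩ := SetLike.exists_of_lt h2
  refine ⟨x, x.2, ?_, fun h3 => hx' (Subgroup.mem_subgroupOf.2 h3)⟩
  rw [Subgroup.mem_normalizer_iff] at hx ⊢
  intro y
  constructor
  · intro hy
    exact Subgroup.mem_subgroupOf.1 ((hx ⟨y, h.le hy⟩).1 (Subgroup.mem_subgroupOf.2 hy))
  · intro hy
    have hyc : y ∈ c := by
      have h3 : (x : G)⁻¹ * ((x : G) * y * (x : G)⁻¹) * x ∈ c :=
        mul_mem (mul_mem (inv_mem x.2) (h.le hy)) x.2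
      have h4 : (x : G)⁻¹ * ((x : G) * y * (x : G)⁻¹) * x = y := by group
      rwa [h4] at h3
    exact Subgroup.mem_subgroupOf.1 ((hx ⟨y, hyc⟩).2 (Subgroup.mem_subgroupOf.2 hy))

/-- if `Q` is radical in `H` then `O_p(H) ≤ Q` -/
theorem op_le_of_radical [Finite G] [Fact p.Prime] {H R Q : Subgroup G} (hR : IsOp p H R)
    (hQH : Q ≤ H) (hQ : IsOp p (H ⊓ Subgroup.normalizer (Q : Set G)) Q) : R ≤ Q := by
  by_contra hne
  have hRQ : IsPGroup p (Q ⊔ R : Subgroup G) :=
    IsPGroup.to_sup_of_normal_right' hQ.isPGroup hR.isPGroup (hQH.trans hR.normal)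
  have hlt : Q < Q ⊔ R := lt_of_le_of_ne le_sup_left fun e => hne (e ▸ le_sup_right)
  obtain ⟨x, hx, hxn, hxQ⟩ := grow hRQ hlt
  have hmul : ((Q ⊔ R : Subgroup G) : Set G) = (Q : Set G) * (R : Set G) :=
    (Subgroup.coe_mul_of_left_le_normalizer_right Q R (hQH.trans hR.normal))
  have hx' : x ∈ (Q : Set G) * (R : Set G) := by
    rw [← hmul]
    exact hx
  obtain ⟨q, hq, r, hr, rfl⟩ := Set.mem_mul.1 hx'
  have hqn : q ∈ Subgroup.normalizer (Q : Set G) := Subgroup.le_normalizer hq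
  have hrn : r ∈ Subgroup.normalizer (Q : Set G) := by
    have := mul_mem (inv_mem hqn) hxn
    rwa [inv_mul_cancel_left] at this
  have h1 : R ⊓ Subgroup.normalizer (Q : Set G) ≤ Q := by
    refine hQ.largest _ (inf_le_inf_right _ hR.le) ?_ (hR.isPGroup.to_le inf_le_left)
    intro y hy0
    obtain ⟨hy1, hy⟩ := Subgroup.mem_inf.1 hy0
    rw [Subgroup.mem_normalizer_iff]
    intro z
    have e1 := Subgroup.mem_normalizer_iff.1 (hR.normal hy1) z
    have e2 : z ∈ Subgroup.normalizer (Q : Set G) ↔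
        y * z * y⁻¹ ∈ Subgroup.normalizer (Q : Set G) := by
      constructor
      · intro h
        exact mul_mem (mul_mem hy h) (inv_mem hy)
      · intro h
        have h3 := mul_mem (mul_mem (inv_mem hy) h) hy
        have h4 : y⁻¹ * (y * z * y⁻¹) * y = z := by group
        rwa [h4] at h3
    exact and_congr e1 e2
  exact hxQ (mul_mem hq (h1 ⟨hr, hrn⟩))

end op

section toggle

variable {α : Type} [DecidableEq α]

/-- insert or remove `L` -/
def tog (L : α) (σ : Finset α) : Finset α := if L ∈ σ then σ.erase L else insert L σ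

theorem mem_tog {L x : α} {σ : Finset α} (h : x ≠ L) : x ∈ tog L σ ↔ x ∈ σ := by
  unfold tog
  split_ifs with h1
  · simp [h]
  · simp [h]

theorem tog_self (L : α) (σ : Finset α) : L ∈ tog L σ ↔ L ∉ σ := by
  unfold tog
  split_ifs with h1 <;> simp [h1]

theorem tog_tog (L : α) (σ : Finset α) : tog L (tog L σ) = σ := by
  ext x
  by_cases h : x = L
  · subst h
    rw [tog_self, tog_self, not_not]
  · rw [mem_tog h, mem_tog h]

theorem tog_card (L : α) (σ : Finset α) :
    (-1 : ℤ) ^ (tog L σ).card = - (-1) ^ σ.card := by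
  unfold tog
  split_ifs with h
  · have h1 := Finset.card_erase_add_one h
    rw [← h1, pow_succ]
    ring
  · rw [Finset.card_insert_of_notMem h, pow_succ]
    ring

theorem sum_toggle (S : Finset (Finset α)) (L : Finset α → α) (h : Finset α → ℤ)
    (h1 : ∀ σ ∈ S, tog (L σ) σ ∈ S) (h2 : ∀ σ ∈ S, L (tog (L σ) σ) = L σ)
    (h3 : ∀ σ ∈ S, h (tog (L σ) σ) = h σ) :
    ∑ σ ∈ S, (-1 : ℤ) ^ σ.card * h σ = 0 := by
  refine Finset.sum_involution (fun σ _ => tog (L σ) σ) ?_ ?_ ?_ ?_
  · intro σ hσ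
    rw [tog_card, h3 σ hσ]
    ring
  · intro σ hσ _ e
    have h4 := tog_card (L σ) σ
    rw [e] at h4
    have h5 : (-1 : ℤ) ^ σ.card ≠ 0 := pow_ne_zero _ (by norm_num)
    omega
  · intro σ hσ
    exact h1 σ hσ
  · intro σ hσ
    rw [h2 σ hσ, tog_tog]

end toggle

end Pool.Agent.H922DI
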