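import Pool.Agent.H922DI.Key1
import Pool.Agent.H922DI.Key2

/-!
# The signed sum over all chains of `p`-subgroups is the sum over the radical chains
-/

set_option autoImplicit false

open scoped Classical

noncomputable section

namespace Pool.Agent.H922DI

open Pool.Agent.Y63.KR (conjSub mem_conjSub chainStabilizer mem_chainStabilizer conjSub_eq_iff)
open Pool.Agent.Q99.AS

section stages

variable {G E : Type} [Group G] [Group E] [Finite G] [Fintype (Subgroup G)] {p : ℕ}
  [Fact p.Prime] {O : Subgroup G} {ι : G →* E}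

theorem stage1 (hι : Function.Injective ι) (hN : ι.range.Normal) (w : Subgroup E → ℤ) :
    ∑ σ ∈ (Ch ((SK p O ⊥).erase O)).filter
      (fun σ : Finset (Subgroup G) => ¬ Nrm (σ : Set (Subgroup G))),
      (-1 : ℤ) ^ σ.card * w (stabE ι (σ : Set (Subgroup G))) = 0 := by
  apply sum_toggle _ L1 (fun σ : Finset (Subgroup G) => w (stabE ι (σ : Set (Subgroup G))))
  · intro σ hσ
    obtain ⟨h1, h2⟩ := Finset.mem_filter.1 hσ
    obtain ⟨h3, h4, -, -⟩ := key1 hι hN (mem_chains.1 h1) h2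
    exact Finset.mem_filter.2 ⟨mem_chains.2 h3, h4⟩
  · intro σ hσ
    obtain ⟨h1, h2⟩ := Finset.mem_filter.1 hσ
    obtain ⟨-, -, h3, -⟩ := key1 hι hN (mem_chains.1 h1) h2
    exact h3
  · intro σ hσ
    obtain ⟨h1, h2⟩ := Finset.mem_filter.1 hσ
    obtain ⟨-, -, -, h3⟩ := key1 hι hN (mem_chains.1 h1) h2
    exact congrArg w h3

theorem stage2 (hι : Function.Injective ι) (hN : ι.range.Normal) (w : Subgroup E → ℤ) :
    ∑ σ ∈ (Ch ((SK p O ⊥).erase O)).filter
      (fun σ : Finset (Subgroup G) => Nrm (σ : Set (Subgroup G)) ∧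
        ¬ Rad p (σ : Set (Subgroup G))),
      (-1 : ℤ) ^ σ.card * w (stabE ι (σ : Set (Subgroup G))) = 0 := by
  apply sum_toggle _ (L2 p)
    (fun σ : Finset (Subgroup G) => w (stabE ι (σ : Set (Subgroup G))))
  · intro σ hσ
    obtain ⟨h1, h2, h2'⟩ := Finset.mem_filter.1 hσ
    obtain ⟨h3, h4, h5, -, -⟩ := key2 hι hN (mem_chains.1 h1) h2 h2'
    exact Finset.mem_filter.2 ⟨mem_chains.2 h3, h4, h5⟩
  · intro σ hσ
    obtain ⟨h1, h2, h2'⟩ := Finset.mem_filter.1 hσ
    obtain ⟨-, -, -, h3, -⟩ := key2 hι hN (mem_chains.1 h1) h2 h2'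
    exact h3
  · intro σ hσ
    obtain ⟨h1, h2, h2'⟩ := Finset.mem_filter.1 hσ
    obtain ⟨-, -, -, -, h3⟩ := key2 hι hN (mem_chains.1 h1) h2 h2'
    exact congrArg w h3

/-- the sum over all chains is the sum over the radical chains -/
theorem csE_rad (hι : Function.Injective ι) (hN : ι.range.Normal) (w : Subgroup E → ℤ) :
    csE ι p O w = ∑ σ ∈ (Ch ((SK p O ⊥).erase O)).filter
      (fun σ : Finset (Subgroup G) => Rad p (σ : Set (Subgroup G))),
      (-1 : ℤ) ^ σ.card * w (stabE ι (σ : Set (Subgroup G))) := by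
  have h1 := stage1 (p := p) (O := O) hι hN w
  have h2 := stage2 (p := p) (O := O) hι hN w
  unfold csE
  rw [← Finset.sum_filter_add_sum_filter_not (Ch ((SK p O ⊥).erase O))
    (fun σ : Finset (Subgroup G) => Rad p (σ : Set (Subgroup G)))]
  have h3 : ∑ σ ∈ (Ch ((SK p O ⊥).erase O)).filter
      (fun σ : Finset (Subgroup G) => ¬ Rad p (σ : Set (Subgroup G))),
      (-1 : ℤ) ^ σ.card * w (stabE ι (σ : Set (Subgroup G))) = 0 := by
    rw [← Finset.sum_filter_add_sum_filter_not _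
      (fun σ : Finset (Subgroup G) => Nrm (σ : Set (Subgroup G))), Finset.filter_filter,
      Finset.filter_filter]
    have e1 : (Ch ((SK p O ⊥).erase O)).filter (fun σ : Finset (Subgroup G) =>
        ¬ Rad p (σ : Set (Subgroup G)) ∧ Nrm (σ : Set (Subgroup G))) =
        (Ch ((SK p O ⊥).erase O)).filter (fun σ : Finset (Subgroup G) =>
        Nrm (σ : Set (Subgroup G)) ∧ ¬ Rad p (σ : Set (Subgroup G))) :=
      Finset.filter_congr fun σ _ => and_comm
    have e2 : (Ch ((SK p O ⊥).erase O)).filter (fun σ : Finset (Subgroup G) =>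
        ¬ Rad p (σ : Set (Subgroup G)) ∧ ¬ Nrm (σ : Set (Subgroup G))) =
        (Ch ((SK p O ⊥).erase O)).filter (fun σ : Finset (Subgroup G) =>
        ¬ Nrm (σ : Set (Subgroup G))) :=
      Finset.filter_congr fun σ _ => ⟨fun h => h.2, fun h => ⟨fun h' => h h'.nrm, h⟩⟩
    rw [e1, e2, h1, h2, add_zero]
  rw [h3, add_zero]

end stages

end Pool.Agent.H922DI
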