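import Pool.Agent.H922DI.Op

/-!
# The signed sum over all chains of `p`-subgroups is the sum over the radical chains
-/

set_option autoImplicit false

open scoped Classical

noncomputable section

namespace Pool.Agent.H922DI

open Pool.Agent.Y63.KR (conjSub mem_conjSub chainStabilizer mem_chainStabilizer conjSub_eq_iff)
open Pool.Agent.Q99.AS

section least

variable {G : Type} [Group G]

theorem exists_least {σ : Finset (Subgroup G)} (hc : IsChain (· ≤ ·) (σ : Set (Subgroup G)))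
    (hne : σ.Nonempty) : ∃ a ∈ σ, ∀ b ∈ σ, a ≤ b := by
  obtain ⟨a, ha⟩ := σ.exists_minimal hne
  refine ⟨a, ha.1, fun b hb => ?_⟩
  rcases hc.total ha.1 hb with h | h
  · exact h
  · exact ha.2 hb h

theorem exists_greatest {σ : Finset (Subgroup G)} (hc : IsChain (· ≤ ·) (σ : Set (Subgroup G)))
    (hne : σ.Nonempty) : ∃ a ∈ σ, ∀ b ∈ σ, b ≤ a := by
  obtain ⟨a, ha⟩ := σ.exists_maximal hne
  refine ⟨a, ha.1, fun b hb => ?_⟩
  rcases hc.total ha.1 hb with h | h
  · exact ha.2 hb h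
  · exact h

/-- the least member -/
def lst (σ : Finset (Subgroup G)) : Subgroup G :=
  if h : ∃ a ∈ σ, ∀ b ∈ σ, a ≤ b then h.choose else ⊥

/-- the greatest member -/
def gst (σ : Finset (Subgroup G)) : Subgroup G :=
  if h : ∃ a ∈ σ, ∀ b ∈ σ, b ≤ a then h.choose else ⊥

theorem lst_spec {σ : Finset (Subgroup G)} (h : ∃ a ∈ σ, ∀ b ∈ σ, a ≤ b) :
    lst σ ∈ σ ∧ ∀ b ∈ σ, lst σ ≤ b := by
  unfold lst
  rw [dif_pos h]
  exact h.choose_spec

theorem gst_spec {σ : Finset (Subgroup G)} (h : ∃ a ∈ σ, ∀ b ∈ σ, b ≤ a) :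
    gst σ ∈ σ ∧ ∀ b ∈ σ, b ≤ gst σ := by
  unfold gst
  rw [dif_pos h]
  exact h.choose_spec

theorem lst_eq {σ : Finset (Subgroup G)} {a : Subgroup G} (ha : a ∈ σ) (h : ∀ b ∈ σ, a ≤ b) :
    lst σ = a := by
  have h1 := lst_spec ⟨a, ha, h⟩
  exact le_antisymm (h1.2 a ha) (h _ h1.1)

theorem gst_eq {σ : Finset (Subgroup G)} {a : Subgroup G} (ha : a ∈ σ) (h : ∀ b ∈ σ, b ≤ a) :
    gst σ = a := by
  have h1 := gst_spec ⟨a, ha, h⟩
  exact le_antisymm (h _ h1.1) (h1.2 a ha)

end least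

section defs

variable {G : Type} [Group G]

/-- the members of `σ` which are contained in `P` -/
def lowr (σ : Set (Subgroup G)) (P : Subgroup G) : Set (Subgroup G) := {Q | Q ∈ σ ∧ Q ≤ P}

/-- each member of `σ` is normalised by the larger members -/
def Nrm (σ : Set (Subgroup G)) : Prop :=
  ∀ P ∈ σ, ∀ Q ∈ σ, P ≤ Q → Q ≤ Subgroup.normalizer (P : Set G)

/-- `σ` is radical: each member `P` is `O_p(N_G(C_P))`, where `C_P` is the part of the chain up to `P`. -/
def Rad (p : ℕ) (σ : Set (Subgroup G)) : Prop :=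
  ∀ P ∈ σ, IsOp p (chainStabilizer (lowr σ P)) P

theorem Rad.nrm {p : ℕ} {σ : Set (Subgroup G)} (h : Rad p σ) : Nrm σ := by
  intro P hP Q hQ hPQ
  exact (h Q hQ).le.trans (le_stab.1 le_rfl P ⟨hP, hPQ⟩)

end defs

section aut

variable {G E : Type} [Group G] [Group E]

/-- conjugation by `x ∈ E` on `G` -/
def aut {ι : G →* E} (hι : Function.Injective ι) (hN : ι.range.Normal) (x : E) : G ≃* G :=
  ((MonoidHom.ofInjective hι).trans (MulAut.conjNormal x)).trans (MonoidHom.ofInjective hι).symm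

theorem aut_apply {ι : G →* E} (hι : Function.Injective ι) (hN : ι.range.Normal) (x : E)
    (g : G) : ι (aut hι hN x g) = x * ι g * x⁻¹ := by
  have h1 : ∀ y : ι.range, ι ((MonoidHom.ofInjective hι).symm y) = y := by
    intro y
    have h2 := (MonoidHom.ofInjective hι).apply_symm_apply y
    exact congrArg Subtype.val h2
  unfold aut
  rw [MulEquiv.trans_apply, MulEquiv.trans_apply, h1, MulAut.conjNormal_apply]
  rfl

theorem map_aut {ι : G →* E} (hι : Function.Injective ι) (hN : ι.range.Normal) (x : E)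
    (P : Subgroup G) : (P.map (aut hι hN x).toMonoidHom).map ι = conjSub x (P.map ι) := by
  unfold conjSub
  rw [Subgroup.map_map, Subgroup.map_map]
  congr 1
  ext g
  exact aut_apply hι hN x g

theorem mem_stabE {ι : G →* E} (hι : Function.Injective ι) (hN : ι.range.Normal) (x : E)
    (σ : Set (Subgroup G)) :
    x ∈ stabE ι σ ↔ ∀ P ∈ σ, P.map (aut hι hN x).toMonoidHom = P := by
  rw [stabE, mem_chainStabilizer]
  constructor
  · intro h P hP
    have h1 : conjSub x (P.map ι) = P.map ι := h _ ⟨P, hP, rfl⟩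
    rw [← map_aut hι hN] at h1
    exact Subgroup.map_injective hι h1
  · rintro h _ ⟨P, hP, rfl⟩
    change conjSub x (P.map ι) = P.map ι
    rw [← map_aut hι hN, h P hP]

/-- toggling a subgroup which is fixed by all automorphisms that fix the other members does not change
the stabiliser -/
theorem stabE_tog {ι : G →* E} (hι : Function.Injective ι) (hN : ι.range.Normal)
    (σ : Finset (Subgroup G)) (L : Subgroup G)
    (h : ∀ a : G ≃* G, (∀ Q ∈ σ, Q ≠ L → Q.map a.toMonoidHom = Q) → L.map a.toMonoidHom = L) :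
    stabE ι (tog L σ : Set (Subgroup G)) = stabE ι (σ : Set (Subgroup G)) := by
  ext x
  rw [mem_stabE hι hN, mem_stabE hι hN]
  constructor
  · intro h1 P hP
    by_cases hPL : P = L
    · subst hPL
      exact h _ fun Q hQ hQL => h1 Q (Finset.mem_coe.2 ((mem_tog hQL).2 hQ))
    · exact h1 P (Finset.mem_coe.2 ((mem_tog hPL).2 hP))
  · intro h1 P hP
    by_cases hPL : P = L
    · subst hPL
      exact h _ fun Q hQ hQL => h1 Q hQ
    · exact h1 P ((mem_tog hPL).1 (Finset.mem_coe.1 hP))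

theorem map_eq_of_le [Finite G] {L : Subgroup G} (a : G ≃* G) (h : L.map a.toMonoidHom ≤ L) :
    L.map a.toMonoidHom = L := by
  refine Subgroup.eq_of_le_of_card_ge h ?_
  exact (Nat.card_congr (Subgroup.equivMapOfInjective L a.toMonoidHom a.injective).toEquiv).le

theorem map_stab {σ : Set (Subgroup G)} (a : G ≃* G) [Finite G]
    (h : ∀ Q ∈ σ, Q.map a.toMonoidHom = Q) :
    (chainStabilizer σ).map a.toMonoidHom = chainStabilizer σ := by
  refine map_eq_of_le a ?_
  rintro _ ⟨g, hg, rfl⟩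
  rw [mem_chainStabilizer]
  intro P hP
  have h1 := mem_chainStabilizer.1 hg P hP
  have h2 := map_conjSub a.toMonoidHom g P
  rw [h1, h P hP] at h2
  exact h2.symm

end aut

section stages

variable {G E : Type} [Group G] [Group E] [Finite G] [Fintype (Subgroup G)] {p : ℕ}
  [Fact p.Prime] {O : Subgroup G} {ι : G →* E}

/-- the members which are not normalised by a larger member -/
def bad1 (σ : Finset (Subgroup G)) : Finset (Subgroup G) :=
  σ.filter fun P => ∃ Q ∈ σ, P ≤ Q ∧ ¬ Q ≤ Subgroup.normalizer (P : Set G)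

/-- the larger members that do not normalise `a` -/
def cand (σ : Finset (Subgroup G)) (a : Subgroup G) : Finset (Subgroup G) :=
  σ.filter fun Q => a ≤ Q ∧ ¬ Q ≤ Subgroup.normalizer (a : Set G)

/-- the subgroup to toggle in a chain which is not normal -/
def L1 (σ : Finset (Subgroup G)) : Subgroup G :=
  lst (cand σ (lst (bad1 σ))) ⊓ Subgroup.normalizer ((lst (bad1 σ) : Subgroup G) : Set G)

omit [Fintype (Subgroup G)] in
theorem stage1_data {σ : Finset (Subgroup G)} (hc : IsChain (· ≤ ·) (σ : Set (Subgroup G)))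
    (hp : ∀ P ∈ σ, IsPGroup p P) (hn : ¬ Nrm (σ : Set (Subgroup G))) :
    ∃ a ∈ σ, ∃ c ∈ σ, lst (bad1 σ) = a ∧ lst (cand σ a) = c ∧
      L1 σ = c ⊓ Subgroup.normalizer (a : Set G) ∧
      (∀ P ∈ bad1 σ, a ≤ P) ∧ (∀ Q ∈ cand σ a, c ≤ Q) ∧ a ≤ c ∧
      ¬ c ≤ Subgroup.normalizer (a : Set G) ∧ a < L1 σ ∧ L1 σ < c ∧
      (∀ Q ∈ σ, c ≤ Q ∨ Q ≤ L1 σ) := by
  have hne : (bad1 σ).Nonempty := by
    unfold Nrm at hn
    push Not at hn
    obtain ⟨P, hP, Q, hQ, h1, h2⟩ := hn
    exact ⟨P, Finset.mem_filter.2 ⟨hP, Q, hQ, h1, h2⟩⟩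
  have hc1 : IsChain (· ≤ ·) (bad1 σ : Set (Subgroup G)) :=
    hc.mono (Finset.coe_subset.2 (Finset.filter_subset _ _))
  obtain ⟨ha, ha'⟩ := lst_spec (exists_least hc1 hne)
  set a := lst (bad1 σ) with hadef
  obtain ⟨haσ, Q0, hQ0, h1, h2⟩ := Finset.mem_filter.1 ha
  have hne2 : (cand σ a).Nonempty := ⟨Q0, Finset.mem_filter.2 ⟨hQ0, h1, h2⟩⟩
  have hc2 : IsChain (· ≤ ·) (cand σ a : Set (Subgroup G)) :=
    hc.mono (Finset.coe_subset.2 (Finset.filter_subset _ _))
  obtain ⟨hcm, hc'⟩ := lst_spec (exists_least hc2 hne2)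
  set c := lst (cand σ a) with hcdef
  obtain ⟨hcσ, hac, hcn⟩ := Finset.mem_filter.1 hcm
  have hL : L1 σ = c ⊓ Subgroup.normalizer (a : Set G) := rfl
  have hlt : a < c := lt_of_le_of_ne hac fun e => hcn (by rw [← e]; exact Subgroup.le_normalizer)
  obtain ⟨x, hx, hxn, hxa⟩ := grow (hp c hcσ) hlt
  have haL : a < L1 σ := by
    rw [hL]
    refine lt_of_le_of_ne (le_inf hac Subgroup.le_normalizer) fun e => hxa ?_
    rw [e]
    exact Subgroup.mem_inf.2 ⟨hx, hxn⟩
  have hLc : L1 σ < c := by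
    rw [hL]
    refine lt_of_le_of_ne inf_le_left fun e => hcn ?_
    rw [← e]
    exact inf_le_right
  refine ⟨a, haσ, c, hcσ, rfl, rfl, hL, ha', hc', hac, hcn, haL, hLc, fun Q hQ => ?_⟩
  by_cases hcQ : c ≤ Q
  · exact Or.inl hcQ
  · right
    rcases hc.total haσ hQ with h3 | h3
    · rw [hL]
      refine le_inf ?_ ?_
      · rcases hc.total hcσ hQ with h4 | h4
        · exact absurd h4 hcQ
        · exact h4
      · by_contra h4
        exact hcQ (hc' Q (Finset.mem_filter.2 ⟨hQ, h3, h4⟩))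
    · exact h3.trans haL.le

/-- the members that are not radical -/
def bad2 (p : ℕ) (σ : Finset (Subgroup G)) : Finset (Subgroup G) :=
  σ.filter fun P => ¬ IsOp p (chainStabilizer (lowr (σ : Set (Subgroup G)) P)) P

/-- the subgroup to toggle in a normal chain which is not radical -/
def L2 (p : ℕ) (σ : Finset (Subgroup G)) : Subgroup G :=
  Op p (chainStabilizer (lowr (σ : Set (Subgroup G)) (gst (bad2 p σ))))

omit [Fintype (Subgroup G)] in
theorem stage2_data {σ : Finset (Subgroup G)} (hc : IsChain (· ≤ ·) (σ : Set (Subgroup G)))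
    (hp : ∀ P ∈ σ, IsPGroup p P) (hn : Nrm (σ : Set (Subgroup G)))
    (hr : ¬ Rad p (σ : Set (Subgroup G))) :
    ∃ M ∈ σ, gst (bad2 p σ) = M ∧ M ∈ bad2 p σ ∧ (∀ P ∈ bad2 p σ, P ≤ M) ∧
      L2 p σ = Op p (chainStabilizer (lowr (σ : Set (Subgroup G)) M)) ∧
      M < L2 p σ ∧ (∀ Q ∈ σ, Q ≤ M ∨ L2 p σ ≤ Q) := by
  have hne : (bad2 p σ).Nonempty := by
    unfold Rad at hr
    push Not at hr
    obtain ⟨P, hP, h1⟩ := hr
    exact ⟨P, Finset.mem_filter.2 ⟨hP, h1⟩⟩
  have hc1 : IsChain (· ≤ ·) (bad2 p σ : Set (Subgroup G)) :=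
    hc.mono (Finset.coe_subset.2 (Finset.filter_subset _ _))
  obtain ⟨hM, hM'⟩ := gst_spec (exists_greatest hc1 hne)
  set M := gst (bad2 p σ) with hMdef
  obtain ⟨hMσ, hMn⟩ := Finset.mem_filter.1 hM
  set H := chainStabilizer (lowr (σ : Set (Subgroup G)) M) with hH
  have hR := op_spec p H
  have hL : L2 p σ = Op p H := rfl
  have hMH : M ≤ H := le_stab.2 fun Q hQ => hn Q hQ.1 M hMσ hQ.2
  have hHM : H ≤ Subgroup.normalizer (M : Set G) := le_stab.1 le_rfl M ⟨hMσ, le_rfl⟩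
  have hML : M < L2 p σ := by
    rw [hL]
    refine lt_of_le_of_ne (hR.largest M hMH hHM (hp M hMσ)) fun e => hMn ?_
    rw [e] at hMn
    exact absurd hR (by rw [← e]; rw [← e] at hMn; exact hMn)
  refine ⟨M, hMσ, rfl, hM, hM', hL, hML, fun Q hQ => ?_⟩
  by_cases hQM : Q ≤ M
  · exact Or.inl hQM
  · right
    have hne2 : (σ.filter fun Q => ¬ Q ≤ M).Nonempty := ⟨Q, Finset.mem_filter.2 ⟨hQ, hQM⟩⟩
    have hc2 : IsChain (· ≤ ·) ((σ.filter fun Q => ¬ Q ≤ M : Finset (Subgroup G)) :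
        Set (Subgroup G)) := hc.mono (Finset.coe_subset.2 (Finset.filter_subset _ _))
    obtain ⟨Q0, hQ0, hleast⟩ := exists_least hc2 hne2
    obtain ⟨hQ0σ, hQ0M⟩ := Finset.mem_filter.1 hQ0
    have hMQ0 : M ≤ Q0 := by
      rcases hc.total hMσ hQ0σ with h | h
      · exact h
      · exact absurd h hQ0M
    have hrad : IsOp p (chainStabilizer (lowr (σ : Set (Subgroup G)) Q0)) Q0 := by
      by_contra h
      exact hQ0M (hM' Q0 (Finset.mem_filter.2 ⟨hQ0σ, h⟩))
    have heq : chainStabilizer (lowr (σ : Set (Subgroup G)) Q0) =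
        H ⊓ Subgroup.normalizer (Q0 : Set G) := by
      apply le_antisymm
      · refine le_inf (le_stab.2 fun P hP => ?_) (le_stab.1 le_rfl Q0 ⟨hQ0σ, le_rfl⟩)
        exact le_stab.1 le_rfl P ⟨hP.1, hP.2.trans hMQ0⟩
      · refine le_stab.2 fun P hP => ?_
        by_cases hPM : P ≤ M
        · exact inf_le_left.trans (le_stab.1 le_rfl P ⟨hP.1, hPM⟩)
        · have h1 := hleast P (Finset.mem_filter.2 ⟨hP.1, hPM⟩)
          have h2 : P = Q0 := le_antisymm hP.2 h1
          rw [h2]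
          exact inf_le_right
    rw [heq] at hrad
    have hQ0H : Q0 ≤ H := le_stab.2 fun P hP => hn P hP.1 Q0 hQ0σ (hP.2.trans hMQ0)
    have h3 := op_le_of_radical hR hQ0H hrad
    rw [hL]
    exact h3.trans (hleast Q (Finset.mem_filter.2 ⟨hQ, hQM⟩))


end stages

end Pool.Agent.H922DI
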