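import Pool.Agent.H922DI.Rad

/-!
# Alternating sums over the classes of radical chains
-/

set_option autoImplicit false

open scoped Classical

noncomputable section

namespace Pool.Agent.H922DI

open Pool.Agent.Y63.KR
open Pool.Agent.Q99.AS

section defs

variable {G E : Type} [Group G] [Group E]

/-- Conjugacy in `G` of radical chains `O = P_0 < P_1 < ⋯ < P_n` of `p`-subgroups (given by the sets
`{P_1, …, P_n}`). -/
def radSetoid (p : ℕ) (O : Subgroup G) :
    Setoid {σ : Set (Subgroup G) // IsCh p O σ ∧ Rad p σ} where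
  r σ τ := ∃ g : G, τ.1 = conjSub g '' σ.1
  iseqv :=
    { refl := fun σ => ⟨1, by
        have : (conjSub (1 : G)) = id := funext conjSub_one
        rw [this, Set.image_id]⟩
      symm := by
        rintro σ τ ⟨g, hg⟩
        refine ⟨g⁻¹, ?_⟩
        rw [hg, ← Set.image_comp]
        have : conjSub g⁻¹ ∘ conjSub g = id := funext fun P => by
          rw [Function.comp_apply, ← conjSub_mul, inv_mul_cancel, conjSub_one, id]
        rw [this, Set.image_id]
      trans := by
        rintro σ τ υ ⟨g, hg⟩ ⟨h, hh⟩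
        refine ⟨h * g, ?_⟩
        rw [hh, hg, ← Set.image_comp]
        congr 1
        exact (funext fun P => conjSub_mul h g P).symm }

/-- The alternating sum `∑_C (-1)^|C| f(N_E(C))` over representatives `C` of the `G`-conjugacy classes
of radical chains `O = P_0 < P_1 < ⋯ < P_n` of `p`-subgroups of `G`, `|C| = n`. -/
def altR (ι : G →* E) (p : ℕ) (O : Subgroup G) (f : Subgroup E → ℤ) : ℤ :=
  ∑ᶠ c : Quotient (radSetoid p O), (-1) ^ c.out.1.ncard * f (stabE ι c.out.1)

end defs

section conj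

variable {G E : Type} [Group G] [Group E] {p : ℕ} {O : Subgroup G}

theorem Rad.conj {σ : Set (Subgroup G)} (h : Rad p σ) (g : G) : Rad p (conjSub g '' σ) := by
  rintro _ ⟨P, hP, rfl⟩
  have e : lowr (conjSub g '' σ) (conjSub g P) = conjSub g '' lowr σ P := by
    ext Q
    constructor
    · rintro ⟨⟨Q0, hQ0, rfl⟩, h2⟩
      refine ⟨Q0, ⟨hQ0, ?_⟩, rfl⟩
      exact (Subgroup.map_le_map_iff_of_injective (MulAut.conj g).injective).1 h2
    · rintro ⟨Q0, ⟨hQ0, h2⟩, rfl⟩
      exact ⟨⟨Q0, hQ0, rfl⟩, conjSub_le h2⟩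
  rw [e, chainStabilizer_conj]
  exact (h P hP).map (MulAut.conj g)

theorem card_mul_altR [Finite G] {ι : G →* E} (hι : Function.Injective ι) (hO : O.Normal)
    (f : Subgroup E → ℤ) (hf : ∀ (g : G) (K : Subgroup E), f (conjSub (ι g) K) = f K)
    [Fintype {σ : Set (Subgroup G) // IsCh p O σ ∧ Rad p σ}] :
    (Nat.card G : ℤ) * altR ι p O f =
      ∑ σ : {σ : Set (Subgroup G) // IsCh p O σ ∧ Rad p σ},
        (-1) ^ σ.1.ncard * ((Nat.card ((stabE ι σ.1).comap ι) : ℤ) * f (stabE ι σ.1)) := by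
  let _ : MulAction G {σ : Set (Subgroup G) // IsCh p O σ ∧ Rad p σ} :=
    { smul := fun g σ => ⟨conjSub g '' σ.1, σ.2.1.conj hO g, σ.2.2.conj g⟩
      one_smul := fun σ => by
        apply Subtype.ext
        change conjSub (1 : G) '' σ.1 = σ.1
        have : (conjSub (1 : G)) = id := funext conjSub_one
        rw [this, Set.image_id]
      mul_smul := fun g h σ => by
        apply Subtype.ext
        change conjSub (g * h) '' σ.1 = conjSub g '' (conjSub h '' σ.1)
        rw [← Set.image_comp]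
        congr 1
        exact funext fun P => conjSub_mul g h P }
  have hsm : ∀ (g : G) (σ : {σ : Set (Subgroup G) // IsCh p O σ ∧ Rad p σ}),
      (g • σ).1 = conjSub g '' σ.1 := fun _ _ => rfl
  have h := orbit_sum (G := G) (radSetoid p O) (by
    intro σ τ
    change (∃ g : G, τ.1 = conjSub g '' σ.1) ↔ _
    constructor
    · rintro ⟨g, hg⟩
      exact ⟨g, Subtype.ext (by rw [hsm, hg])⟩
    · rintro ⟨g, hg⟩
      exact ⟨g, by rw [← hg, hsm]⟩)
    (fun σ => (-1) ^ σ.1.ncard * f (stabE ι σ.1)) (by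
      rintro σ τ ⟨g, hg⟩
      rw [hg, ncard_conj, stabE_conj, hf])
  unfold altR
  rw [h]
  refine Finset.sum_congr rfl fun σ _ => ?_
  have hst : Nat.card (MulAction.stabilizer G σ) = Nat.card ((stabE ι σ.1).comap ι) := by
    rw [comap_stabE hι]
    refine Nat.card_congr (Equiv.subtypeEquivRight fun g => ?_)
    rw [MulAction.mem_stabilizer_iff, Subtype.ext_iff, hsm, mem_chainStabilizer]
    constructor
    · intro h3 P hP
      have hgP : conjSub g P ∈ σ.1 := by
        rw [← h3]
        exact ⟨P, hP, rfl⟩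
      have hcard : Nat.card (conjSub g P) = Nat.card P :=
        Nat.card_congr (Subgroup.equivMapOfInjective _ _ (MulAut.conj g).injective).toEquiv.symm
      rcases σ.2.1.chain.total hgP hP with h4 | h4
      · exact Subgroup.eq_of_le_of_card_ge h4 hcard.ge
      · exact (Subgroup.eq_of_le_of_card_ge h4 hcard.le).symm
    · intro h3
      ext P
      constructor
      · rintro ⟨Q, hQ, rfl⟩
        rw [h3 Q hQ]
        exact hQ
      · intro hP
        exact ⟨P, hP, h3 P hP⟩
  rw [hst]
  ring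

variable [Fintype (Subgroup G)]

theorem sum_rad (ι : G →* E) (w : Subgroup E → ℤ)
    [Fintype {σ : Set (Subgroup G) // IsCh p O σ ∧ Rad p σ}] :
    ∑ σ : {σ : Set (Subgroup G) // IsCh p O σ ∧ Rad p σ},
        (-1) ^ σ.1.ncard * w (stabE ι σ.1) =
      ∑ σ ∈ (Ch ((SK p O ⊥).erase O)).filter
        (fun σ : Finset (Subgroup G) => Rad p (σ : Set (Subgroup G))),
        (-1 : ℤ) ^ σ.card * w (stabE ι (σ : Set (Subgroup G))) := by
  refine Finset.sum_bij (fun σ _ => σ.1.toFinset) ?_ ?_ ?_ ?_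
  · intro σ _
    rw [Finset.mem_filter, mem_chains, Set.coe_toFinset]
    exact σ.2
  · intro σ _ τ _ h
    apply Subtype.ext
    rw [← Set.coe_toFinset σ.1, h, Set.coe_toFinset]
  · intro σ hσ
    obtain ⟨h1, h2⟩ := Finset.mem_filter.1 hσ
    refine ⟨⟨(σ : Set (Subgroup G)), mem_chains.1 h1, h2⟩, Finset.mem_univ _, ?_⟩
    simp
  · intro σ _
    rw [Set.coe_toFinset, Set.ncard_eq_toFinset_card']

end conj

/-- **The alternating sum over the radical chains is the alternating sum over all chains.** -/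
theorem altR_eq {G E : Type} [Group G] [Group E] [Finite G] {p : ℕ} [Fact p.Prime]
    {O : Subgroup G} {ι : G →* E} (hι : Function.Injective ι) (hN : ι.range.Normal)
    (hO : O.Normal) (f : Subgroup E → ℤ)
    (hf : ∀ (g : G) (K : Subgroup E), f (conjSub (ι g) K) = f K) :
    altR ι p O f = altE ι p O f := by
  let _ : Fintype (Subgroup G) := Fintype.ofFinite _
  let _ : Fintype {σ : Set (Subgroup G) // IsCh p O σ} := Fintype.ofFinite _
  let _ : Fintype {σ : Set (Subgroup G) // IsCh p O σ ∧ Rad p σ} := Fintype.ofFinite _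
  have h1 := card_mul_altR (p := p) hι hO f hf
  have h2 := card_mul_altE (p := p) hι hO f hf
  rw [sum_rad ι (fun K => (Nat.card (K.comap ι) : ℤ) * f K)] at h1
  rw [sum_eq_csE ι (fun K => (Nat.card (K.comap ι) : ℤ) * f K), csE_rad hι hN, ← h1] at h2
  have hpos : (Nat.card G : ℤ) ≠ 0 := by
    have : 0 < Nat.card G := Nat.card_pos
    exact_mod_cast this.ne'
  exact (mul_left_cancel₀ hpos h2).symm

section sums

variable {G E A : Type} [Group G] [Group E] [Group A] {F : Type} [Field F]
  (red : integralClosure ℤ ℂ →+* F)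

theorem inEq_conj {ι : G →* E} {π : E →* A} (h0 : ∀ g, π (ι g) = 1) (U : Subgroup A)
    (K : Subgroup E) (g : G) (H : Subgroup G) (ϑ : conjSub g H → ℂ) :
    InEq ι π U K (fun x => ϑ (cj g H x)) ↔ InEq ι π U (conjSub (ι g) K) ϑ :=
  forall_congr' fun u => iff_congr Iff.rfl (ex_conj h0 u K g H ϑ)

theorem kEq_conj (p d : ℕ) {ι : G →* E} {π : E →* A} (h0 : ∀ g, π (ι g) = 1) (U : Subgroup A)
    (χ : G → ℂ) (g : G) (K : Subgroup E) :
    kEq red p d ι π U χ (conjSub (ι g) K) = kEq red p d ι π U χ K := by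
  unfold kEq
  rw [comap_conjSub]
  exact num_conj' red χ g (K.comap ι) fun ϑ =>
    and_congr (Dft_congr _ _) (inEq_conj h0 U K g (K.comap ι) ϑ)

/-- `∑_C (-1)^|C| k_C(B, d, ≥ U)`, over representatives of the `G`-classes of radical chains of
`p`-subgroups of `G` which start at `O`; `B` is the block of `χ`. -/
def rGe (p : ℕ) (ι : G →* E) (π : E →* A) (O : Subgroup G) (U : Subgroup A) (χ : G → ℂ) (d : ℕ) : ℤ :=
  altR ι p O (kGe red p d ι π U χ)

/-- Dade's sum `∑_C (-1)^|C| k_C(B, d, U)`, over representatives of the `G`-classes of radical chains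
of `p`-subgroups of `G` which start at `O`; `B` is the block of `χ`. -/
def rEq (p : ℕ) (ι : G →* E) (π : E →* A) (O : Subgroup G) (U : Subgroup A) (χ : G → ℂ) (d : ℕ) : ℤ :=
  altR ι p O (kEq red p d ι π U χ)

theorem IsExt.range_normal {ι : G →* E} {π : E →* A} (h : IsExt ι π) : ι.range.Normal := by
  refine ⟨?_⟩
  rintro _ ⟨g, rfl⟩ e
  obtain ⟨a, ha⟩ := (h.exact (e * ι g * e⁻¹)).1 (by
    rw [map_mul, map_mul, h.map_one, map_inv]
    simp)
  exact ⟨a, ha⟩

theorem rGe_eq [Finite G] {p : ℕ} [Fact p.Prime] {ι : G →* E} {π : E →* A} (h : IsExt ι π)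
    {O : Subgroup G} (hO : O.Normal) (U : Subgroup A) (χ : G → ℂ) (d : ℕ) :
    rGe red p ι π O U χ d = sGe red p ι π O U χ d :=
  altR_eq h.inj h.range_normal hO _ fun g K => kGe_conj red p d h.map_one U χ g K

theorem rEq_eq [Finite G] {p : ℕ} [Fact p.Prime] {ι : G →* E} {π : E →* A} (h : IsExt ι π)
    {O : Subgroup G} (hO : O.Normal) (U : Subgroup A) (χ : G → ℂ) (d : ℕ) :
    rEq red p ι π O U χ d = sEq red p ι π O U χ d :=
  altR_eq h.inj h.range_normal hO _ fun g K => kEq_conj red p d h.map_one U χ g K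

end sums

end Pool.Agent.H922DI
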